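import Pool.Agent.Run7.h526.AC.Wave

/-!
Convexity, superlinearity, derivatives and growth of the Lagrangian `|v|^4 + 2|v|^2 + W`.
-/

set_option autoImplicit false

namespace Pool.Agent.Run7.h526.AC

open Set Filter Topology
open Pool.Agent.W774.TL Pool.Agent.TH217.TL
open scoped ContDiff

noncomputable section

variable {m : ℕ}

/-- scalar product -/
def dot (v w : Fin (m + 1) → ℝ) : ℝ := ∑ i, v i * w i

lemma dot_single (v : Fin (m + 1) → ℝ) (i : Fin (m + 1)) : dot v (Pi.single i 1) = v i := by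
  unfold dot
  simp [Pi.single_apply]

lemma sq_hd {γ : ℝ → (Fin (m + 1) → ℝ)} {g : Fin (m + 1) → ℝ} {s : ℝ} (h : HasDerivAt γ g s) :
    HasDerivAt (fun s => sq (γ s)) (2 * dot (γ s) g) s := by
  unfold sq dot
  have h1 : ∀ i ∈ (Finset.univ : Finset (Fin (m + 1))),
      HasDerivAt (fun s => γ s i ^ 2) (2 * (γ s i * g i)) s := by
    intro i _
    have := ((hasDerivAt_pi.1 h i).fun_pow 2)
    refine this.congr_deriv ?_
    simp; ring
  rw [Finset.mul_sum]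
  exact HasDerivAt.fun_sum h1

lemma Q_hd {γ : ℝ → (Fin (m + 1) → ℝ)} {g : Fin (m + 1) → ℝ} {c : ℝ → ℝ} {c' s : ℝ}
    (h : HasDerivAt γ g s) (hc : HasDerivAt c c' s) :
    HasDerivAt (fun s => Q (c s) (γ s))
      (2 * dot (γ s) g - 2 * c' * γ s 0 - 2 * c s * g 0 + 2 * c s * c') s := by
  unfold Q
  have h0 := hasDerivAt_pi.1 h 0
  have := ((sq_hd h).fun_sub ((hc.const_mul 2).fun_mul h0)).fun_add (hc.fun_pow 2)
  refine this.congr_deriv ?_
  simp; ring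

lemma dot_sub (v w : Fin (m + 1) → ℝ) (S : ℝ) :
    ∑ i, (v i - if i = 0 then S else 0) * w i = dot v w - S * w 0 := by
  unfold dot
  simp [sub_mul, Finset.sum_sub_distrib]

lemma cs (v w : Fin (m + 1) → ℝ) (S : ℝ) : (dot v w - S * w 0) ^ 2 ≤ Q S v * sq w := by
  rw [← dot_sub, Q_sum]
  exact Finset.sum_mul_sq_le_sq_mul_sq _ _ _

/-- the part of the bump which does not depend on the velocity -/
def a0 (δ s₀ S c : ℝ) (x : Fin (m + 1) → ℝ) : ℝ :=
  amp s₀ S * psi (Q c x / δ ^ 2) * (2 * (x 0 - c) - Q c x / 2)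

lemma br_eq (δ s₀ S c : ℝ) (x v : Fin (m + 1) → ℝ) :
    br δ s₀ S c x v = a0 δ s₀ S c x * psi (Q S v) := by
  unfold br a0; ring

lemma P_bd {δ : ℝ} (hδ : 0 < δ) (hδ1 : δ ≤ 1 / 4) (c : ℝ) (x : Fin (m + 1) → ℝ)
    (h : Q c x / δ ^ 2 ≤ 1 / 2) : |2 * (x 0 - c) - Q c x / 2| ≤ 3 * δ ∧ ∀ i,
      |x i - if i = 0 then c else 0| ≤ δ := by
  have hQ : Q c x ≤ δ ^ 2 / 2 := by
    rw [div_le_iff₀ (by positivity)] at h
    linarith
  have h2 : ∀ i, |x i - if i = 0 then c else 0| ≤ δ := by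
    intro i
    have h3 := Q_ge c x i
    exact abs_le_of_sq_le_sq (by nlinarith) hδ.le
  refine ⟨?_, h2⟩
  have h3 := h2 0
  simp only [if_true] at h3
  have h0 := Q_nonneg c x
  rw [abs_le] at h3 ⊢
  constructor <;> nlinarith

lemma a0_bd {δ : ℝ} (hδ : 0 < δ) (hδ1 : δ ≤ 1 / 4) (s₀ S c : ℝ) (x : Fin (m + 1) → ℝ) :
    |a0 δ s₀ S c x| ≤ beta S * (3 * δ) := by
  unfold a0
  have hb := beta_pos S
  rcases le_or_gt (Q c x / δ ^ 2) (1 / 2) with h | h
  · have h1 := (P_bd hδ hδ1 c x h).1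
    rw [abs_mul, abs_mul, abs_of_nonneg (amp_nonneg _ _), abs_of_nonneg (psi_nonneg _)]
    have h2 := amp_le s₀ S
    have h3 := psi_le_one (Q c x / δ ^ 2)
    have h4 := amp_nonneg s₀ S
    have h5 := psi_nonneg (Q c x / δ ^ 2)
    have h6 : amp s₀ S * psi (Q c x / δ ^ 2) ≤ beta S * 1 := by gcongr
    rw [mul_one] at h6
    gcongr
  · rw [psi_zero h.le]
    simp only [mul_zero, zero_mul, abs_zero]
    positivity

lemma beta_le {S : ℝ} {v : Fin (m + 1) → ℝ} (h : Q S v ≤ 1 / 2) :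
    beta S ≤ 24 * (sq v + 1) := by
  have h1 := (Q_ge0 S v).trans h
  have h2 := sq_ge v 0
  unfold beta
  nlinarith [sq_nonneg (2 * v 0 - S)]

/-- the basic Lagrangian -/
def BB (v : Fin (m + 1) → ℝ) : ℝ := sq v ^ 2 + 2 * sq v

def LL (δ s₀ : ℝ) (x v : Fin (m + 1) → ℝ) (t : ℝ) : ℝ := BB v + W δ s₀ x v t

lemma LL_cd {δ s₀ : ℝ} (hδ : 0 < δ) (hδ1 : δ ≤ 1 / 4) :
    ContDiff ℝ ∞ (fun q : (Fin (m + 1) → ℝ) × (Fin (m + 1) → ℝ) × ℝ =>
      LL δ s₀ q.1 q.2.1 q.2.2) := by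
  unfold LL BB
  have h : ContDiff ℝ ∞ (fun q : (Fin (m + 1) → ℝ) × (Fin (m + 1) → ℝ) × ℝ => sq q.2.1) :=
    sq_cd.comp (contDiff_fst.comp contDiff_snd)
  exact ((h.pow 2).add (contDiff_const.mul h)).add (W_cd hδ hδ1)

lemma LL_sm {δ s₀ : ℝ} (hδ : 0 < δ) (hδ1 : δ ≤ 1 / 4) :
    Sm (LL δ s₀ : (Fin (m + 1) → ℝ) → (Fin (m + 1) → ℝ) → ℝ → ℝ) :=
  contDiff_infty.1 (LL_cd hδ hδ1) 2

lemma sq_line (v w : Fin (m + 1) → ℝ) (s : ℝ) :
    sq (v + s • w) = sq v + 2 * s * dot v w + s ^ 2 * sq w := by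
  unfold sq dot
  simp only [Pi.add_apply, Pi.smul_apply, smul_eq_mul, Finset.mul_sum]
  rw [← Finset.sum_add_distrib, ← Finset.sum_add_distrib]
  refine Finset.sum_congr rfl fun i _ => ?_
  ring

lemma Q_line (S : ℝ) (v w : Fin (m + 1) → ℝ) (s : ℝ) :
    Q S (v + s • w) = Q S v + 2 * s * (dot v w - S * w 0) + s ^ 2 * sq w := by
  unfold Q
  rw [sq_line]
  simp only [Pi.add_apply, Pi.smul_apply, smul_eq_mul]
  ring

lemma quad_hd (a b c s : ℝ) :
    HasDerivAt (fun s : ℝ => a + 2 * s * b + s ^ 2 * c) (2 * b + 2 * s * c) s := by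
  have h := (((hasDerivAt_id s).const_mul 2).mul_const b).const_add a
  have h2 := ((hasDerivAt_id s).fun_pow 2).mul_const c
  have h3 := h.fun_add h2
  refine h3.congr_deriv ?_
  simp

/-- the second derivative on a line. -/
lemma second (e b₂ r b c a : ℝ) :
    deriv (deriv (fun s : ℝ => (e + 2 * s * b₂ + s ^ 2 * c) ^ 2 + 2 * (e + 2 * s * b₂ + s ^ 2 * c)
      + a * psi (r + 2 * s * b + s ^ 2 * c))) 0 =
      8 * b₂ ^ 2 + 4 * (e + 1) * c + a * (deriv (deriv psi) r * (4 * b ^ 2) +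
        deriv psi r * (2 * c)) := by
  have hpsi : ∀ y, HasDerivAt psi (deriv psi y) y := fun y =>
    (psi_cd.differentiable (by simp)).differentiableAt.hasDerivAt
  have hdpsi : ∀ y, HasDerivAt (deriv psi) (deriv (deriv psi) y) y := fun y =>
    (dpsi_cd.differentiable (by simp)).differentiableAt.hasDerivAt
  have h1 : deriv (fun s : ℝ => (e + 2 * s * b₂ + s ^ 2 * c) ^ 2 +
      2 * (e + 2 * s * b₂ + s ^ 2 * c) + a * psi (r + 2 * s * b + s ^ 2 * c)) =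
      fun s => 2 * (e + 2 * s * b₂ + s ^ 2 * c) * (2 * b₂ + 2 * s * c) +
        2 * (2 * b₂ + 2 * s * c) +
        a * (deriv psi (r + 2 * s * b + s ^ 2 * c) * (2 * b + 2 * s * c)) := by
    funext s
    have h2 := quad_hd e b₂ c s
    have h3 := quad_hd r b c s
    have h4 := ((h2.fun_pow 2).fun_add (h2.const_mul 2)).fun_add
      (((hpsi _).comp s h3).const_mul a)
    refine h4.deriv.trans ?_
    simp
  rw [h1]
  have h2 := quad_hd e b₂ c 0
  have h3 := quad_hd r b c 0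
  have h5 : HasDerivAt (fun s : ℝ => 2 * b₂ + 2 * s * c) (2 * c) 0 := by
    have := (((hasDerivAt_id (0 : ℝ)).const_mul 2).mul_const c).const_add (2 * b₂)
    simpa using this
  have h6 : HasDerivAt (fun s : ℝ => 2 * b + 2 * s * c) (2 * c) 0 := by
    have := (((hasDerivAt_id (0 : ℝ)).const_mul 2).mul_const c).const_add (2 * b)
    simpa using this
  have h7 := (((h2.const_mul 2).fun_mul h5).fun_add (h5.const_mul 2)).fun_add
    ((((hdpsi _).comp (0 : ℝ) h3).fun_mul h6).const_mul a)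
  refine h7.deriv.trans ?_
  simp only [Function.comp_apply]
  norm_num
  ring

lemma sq_pos_of_ne {w : Fin (m + 1) → ℝ} (hw : w ≠ 0) : 0 < sq w := by
  obtain ⟨i, hi⟩ := Function.ne_iff.1 hw
  have h1 : 0 < w i ^ 2 := by
    have : w i ≠ 0 := hi
    positivity
  exact h1.trans_le (sq_ge w i)

/-- positive definiteness of the Hessian in the fibres. -/
lemma LL_pos {δ s₀ C : ℝ} (hδ : 0 < δ) (hC1 : 1 ≤ C)
    (hC : ∀ r : ℝ, |deriv psi r| ≤ C ∧ |deriv (deriv psi) r| ≤ C) (hδC : 288 * δ * C ≤ 1) :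
    Pos (LL δ s₀ : (Fin (m + 1) → ℝ) → (Fin (m + 1) → ℝ) → ℝ → ℝ) := by
  have hδ1 : δ ≤ 1 / 4 := by nlinarith
  intro x v t w hw
  obtain ⟨n, k, h1, h2⟩ := round_near x v t
  set S : ℝ := 2 * (n + t) with hS
  set c : ℝ := 2 * n * t + t ^ 2 + k with hc
  have hev : (fun s : ℝ => LL δ s₀ x (v + s • w) t) =ᶠ[𝓝 0] fun s =>
      (sq v + 2 * s * dot v w + s ^ 2 * sq w) ^ 2 +
        2 * (sq v + 2 * s * dot v w + s ^ 2 * sq w) +
        a0 δ s₀ S c x * psi (Q S v + 2 * s * (dot v w - S * w 0) + s ^ 2 * sq w) := by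
    have hc1 : Continuous (fun s : ℝ => |(v + s • w) 0 - 2 * ((n : ℝ) + t)|) := by
      simp only [Pi.add_apply, Pi.smul_apply, smul_eq_mul]
      fun_prop
    have hlt : |(v + (0 : ℝ) • w) 0 - 2 * ((n : ℝ) + t)| < 6 / 5 := by
      simp only [zero_smul, add_zero]
      linarith
    filter_upwards [(isOpen_lt hc1 continuous_const).mem_nhds hlt] with s hs
    unfold LL BB
    rw [W_loc hδ hδ1 n k x (v + s • w) t hs (by linarith), sq_line]
    unfold brt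
    rw [br_eq, Q_line]
  rw [hev.deriv.deriv_eq, second]
  have hcw := sq_pos_of_ne hw
  have hsv := sq_nonneg' v
  have ha := a0_bd hδ hδ1 s₀ S c x
  have hb := beta_pos S
  rcases le_or_gt (Q S v) (1 / 2) with h | h
  · have h3 := beta_le h
    have h4 := cs v w S
    set b := dot v w - S * w 0 with hbdef
    have h5 : b ^ 2 ≤ sq w / 2 := by
      have := mul_le_mul_of_nonneg_right h hcw.le
      linarith
    have h6 : |deriv (deriv psi) (Q S v) * (4 * b ^ 2) + deriv psi (Q S v) * (2 * sq w)| ≤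
        4 * C * sq w := by
      refine (abs_add_le _ _).trans ?_
      rw [abs_mul (deriv (deriv psi) (Q S v)) (4 * b ^ 2),
        abs_mul (deriv psi (Q S v)) (2 * sq w), abs_of_nonneg (by positivity : (0:ℝ) ≤ 4 * b ^ 2),
        abs_of_nonneg (by positivity : (0:ℝ) ≤ 2 * sq w)]
      have h7 := (hC (Q S v)).1
      have h8 := (hC (Q S v)).2
      have h9 : |deriv (deriv psi) (Q S v)| * (4 * b ^ 2) ≤ C * (2 * sq w) := by
        have : 4 * b ^ 2 ≤ 2 * sq w := by linarith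
        gcongr
      have h10 : |deriv psi (Q S v)| * (2 * sq w) ≤ C * (2 * sq w) := by gcongr
      linarith
    have h7 : |a0 δ s₀ S c x * (deriv (deriv psi) (Q S v) * (4 * b ^ 2) +
        deriv psi (Q S v) * (2 * sq w))| ≤ (24 * (sq v + 1) * (3 * δ)) * (4 * C * sq w) := by
      rw [abs_mul]
      have : |a0 δ s₀ S c x| ≤ 24 * (sq v + 1) * (3 * δ) := ha.trans (by gcongr)
      gcongr
    have h8 : (24 * (sq v + 1) * (3 * δ)) * (4 * C * sq w) ≤ (sq v + 1) * sq w := by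
      have e : (24 * (sq v + 1) * (3 * δ)) * (4 * C * sq w) =
        (288 * δ * C) * ((sq v + 1) * sq w) := by ring
      rw [e]
      have : 0 ≤ (sq v + 1) * sq w := by positivity
      nlinarith
    have h9 := neg_abs_le (a0 δ s₀ S c x * (deriv (deriv psi) (Q S v) * (4 * b ^ 2) +
        deriv psi (Q S v) * (2 * sq w)))
    have h10 : 0 < (sq v + 1) * sq w := by positivity
    have h11 := sq_nonneg (dot v w)
    nlinarith
  · rw [dpsi_zero h, ddpsi_zero h]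
    have h10 : 0 < (sq v + 1) * sq w := by positivity
    have h11 := sq_nonneg (dot v w)
    nlinarith

lemma W_bd {δ s₀ : ℝ} (hδ : 0 < δ) (hδ1 : δ ≤ 1 / 4) (x v : Fin (m + 1) → ℝ) (t : ℝ) :
    |W δ s₀ x v t| ≤ 72 * δ * (sq v + 1) := by
  unfold W brt
  rw [br_eq, abs_mul, abs_of_nonneg (psi_nonneg _)]
  set n : ℤ := round ((v 0 - 2 * t) / 2)
  set k : ℤ := round (x 0 - (2 * (n : ℝ) * t + t ^ 2))
  set S : ℝ := 2 * (n + t) with hS
  set c : ℝ := 2 * n * t + t ^ 2 + k with hc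
  have ha := a0_bd hδ hδ1 s₀ S c x
  have hsv := sq_nonneg' v
  rcases le_or_gt (Q S v) (1 / 2) with h | h
  · have h3 := beta_le h
    have h4 := psi_le_one (Q S v)
    have h5 := psi_nonneg (Q S v)
    have h6 : |a0 δ s₀ S c x| * psi (Q S v) ≤ (24 * (sq v + 1) * (3 * δ)) * 1 := by
      have : |a0 δ s₀ S c x| ≤ 24 * (sq v + 1) * (3 * δ) := ha.trans (by gcongr)
      gcongr
    linarith
  · rw [psi_zero h.le, mul_zero]
    positivity

lemma LL_sup {δ s₀ C : ℝ} (hδ : 0 < δ) (hC1 : 1 ≤ C) (hδC : 288 * δ * C ≤ 1) :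
    Sup (LL δ s₀ : (Fin (m + 1) → ℝ) → (Fin (m + 1) → ℝ) → ℝ → ℝ) := by
  have hδ1 : δ ≤ 1 / 4 := by nlinarith
  have hδ2 : 72 * δ ≤ 1 := by nlinarith
  intro K
  refine ⟨K ^ 2 + 1, fun x v t => ?_⟩
  have h1 := W_bd (s₀ := s₀) hδ hδ1 x v t
  have h2 := sq_nonneg' v
  have h3 := sq_ge_norm v
  have h4 : |W δ s₀ x v t| ≤ sq v + 1 := h1.trans (by nlinarith)
  have h5 := neg_abs_le (W δ s₀ x v t)
  unfold LL BB
  nlinarith [sq_nonneg (‖v‖ - K), sq_nonneg (‖v‖ + K), norm_nonneg v]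

end

end Pool.Agent.Run7.h526.AC
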