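import Pool.Agent.Run7.h526.AC.Grow

/-!
The dynamics near the accelerating orbit `(t^2, 0)`.
-/

set_option autoImplicit false

namespace Pool.Agent.Run7.h526.AC

open Set Filter Topology
open Pool.Agent.W774.TL Pool.Agent.TH217.TL
open scoped ContDiff

noncomputable section

variable {m : ℕ}

/-- the kinetic part of the energy in the moving frame -/
def Kh (v : Fin (m + 1) → ℝ) (t : ℝ) : ℝ :=
  3 * sq v ^ 2 + 2 * sq v - 2 * t * (4 * (sq v + 1) * v 0) + (16 * t ^ 4 + 8 * t ^ 2)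

/-- the Lyapunov function -/
def Nf (x v : Fin (m + 1) → ℝ) (t : ℝ) : ℝ := Kh v t / beta (2 * t) + Q (t ^ 2) x / 2

lemma Kh_eq (v : Fin (m + 1) → ℝ) (t : ℝ) :
    Kh v t = 16 * t ^ 2 * (v 0 - 2 * t) ^ 2 + 8 * t ^ 2 * Q (2 * t) v +
      16 * t * (v 0 - 2 * t) * Q (2 * t) v + 3 * Q (2 * t) v ^ 2 + 2 * Q (2 * t) v := by
  unfold Kh Q; ring

lemma Kh_ge {v : Fin (m + 1) → ℝ} {t : ℝ} (ht : 2 ≤ t) (h : Q (2 * t) v ≤ 1 / 4) :
    4 * t ^ 2 * Q (2 * t) v ≤ Kh v t := by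
  rw [Kh_eq]
  have h0 := Q_nonneg (2 * t) v
  have h1 := (Q_ge0 (2 * t) v).trans h
  have h2 : |v 0 - 2 * t| ≤ 1 / 2 := abs_le_of_sq_le_sq (by linarith) (by norm_num)
  rw [abs_le] at h2
  have h3 : -(8 * t * Q (2 * t) v) ≤ 16 * t * (v 0 - 2 * t) * Q (2 * t) v := by
    have h4 : 0 ≤ (1 / 2 + (v 0 - 2 * t)) * (t * Q (2 * t) v) := by
      have : 0 ≤ 1 / 2 + (v 0 - 2 * t) := by linarith [h2.1]
      have : 0 ≤ t * Q (2 * t) v := by positivity
      positivity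
    nlinarith
  have h4 : 0 ≤ 16 * t ^ 2 * (v 0 - 2 * t) ^ 2 := by positivity
  have h5 : 8 * t * Q (2 * t) v ≤ 4 * t ^ 2 * Q (2 * t) v := by
    have : 0 ≤ (t - 2) * (t * Q (2 * t) v) := by
      have : 0 ≤ t - 2 := by linarith
      positivity
    nlinarith
  nlinarith [sq_nonneg (Q (2 * t) v)]

lemma Nf_ge {x v : Fin (m + 1) → ℝ} {t : ℝ} (ht : 2 ≤ t) (h : Q (2 * t) v ≤ 1 / 4) :
    Q (2 * t) v / 13 ≤ Nf x v t ∧ Q (t ^ 2) x / 2 ≤ Nf x v t := by
  have h1 := Kh_ge ht h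
  have h0 := Q_nonneg (2 * t) v
  have hb := beta_pos (2 * t)
  have h2 := Q_nonneg (t ^ 2) x
  have h3 : Q (2 * t) v / 13 ≤ Kh v t / beta (2 * t) := by
    rw [div_le_div_iff₀ (by norm_num) hb]
    have h4 : beta (2 * t) ≤ 52 * t ^ 2 := by unfold beta; nlinarith
    have h5 : Q (2 * t) v * beta (2 * t) ≤ Q (2 * t) v * (52 * t ^ 2) := by gcongr
    nlinarith
  have h4 : 0 ≤ Q (2 * t) v / 13 := by positivity
  unfold Nf
  constructor <;> linarith

/-- the derivative of the Lyapunov function -/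
def Dn (x v F : Fin (m + 1) → ℝ) (t : ℝ) : ℝ :=
  (dot v F - 2 * t * F 0 - 16 * t * Q (2 * t) v - 32 * t * (v 0 - 2 * t) ^ 2 -
    8 * (v 0 - 2 * t) * Q (2 * t) v) / beta (2 * t) - Kh v t * (96 * t) / beta (2 * t) ^ 2

lemma sumR (v x F : Fin (m + 1) → ℝ) (b c : ℝ) :
    ∑ i, v i * (b * (2 * (if i = 0 then 1 else 0) - (x i - if i = 0 then c else 0)) + F i) =
      b * (2 * v 0 - dot v x + c * v 0) + dot v F := by
  unfold dot
  have : ∀ i : Fin (m + 1),
      v i * (b * (2 * (if i = 0 then 1 else 0) - (x i - if i = 0 then c else 0)) + F i) =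
      (if i = 0 then b * (2 + c) * v i else 0) - b * (v i * x i) + v i * F i := by
    intro i
    by_cases hi : i = 0
    · rw [if_pos hi, if_pos hi, if_pos hi]; ring
    · rw [if_neg hi, if_neg hi, if_neg hi]; ring
  rw [Finset.sum_congr rfl fun i _ => this i, Finset.sum_add_distrib, Finset.sum_sub_distrib,
    ← Finset.mul_sum]
  simp
  ring

lemma N_hd {γ V : ℝ → (Fin (m + 1) → ℝ)} {t : ℝ} {a F : Fin (m + 1) → ℝ}
    (hγ : HasDerivAt γ (V t) t) (hV : HasDerivAt V a t)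
    (hP : ∀ i, HasDerivAt (fun s => 4 * (sq (V s) + 1) * V s i)
      (beta (2 * t) * (2 * (if i = 0 then 1 else 0) - (γ t i - if i = 0 then t ^ 2 else 0)) +
        F i) t) :
    HasDerivAt (fun s => Nf (γ s) (V s) s) (Dn (γ t) (V t) F t) t := by
  have he := sq_hd hV
  have hb0 := beta_pos (2 * t)
  have hR : ∀ i, beta (2 * t) * (2 * (if i = 0 then 1 else 0) -
      (γ t i - if i = 0 then t ^ 2 else 0)) + F i =
      4 * (2 * dot (V t) a) * V t i + 4 * (sq (V t) + 1) * a i := by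
    intro i
    have h1 := (((he.add_const 1).const_mul 4).fun_mul (hasDerivAt_pi.1 hV i))
    exact (hP i).unique h1
  have hsum : beta (2 * t) * (2 * V t 0 - dot (V t) (γ t) + t ^ 2 * V t 0) + dot (V t) F =
      (12 * sq (V t) + 4) * dot (V t) a := by
    rw [← sumR, Finset.sum_congr rfl fun i _ => by rw [hR i]]
    have e1 : dot (V t) a = ∑ i, V t i * a i := rfl
    have e2 : sq (V t) = ∑ i, V t i ^ 2 := rfl
    have : ∀ i, V t i * (4 * (2 * dot (V t) a) * V t i + 4 * (sq (V t) + 1) * a i) =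
        8 * dot (V t) a * (V t i ^ 2) + 4 * (sq (V t) + 1) * (V t i * a i) := by
      intro i; ring
    rw [Finset.sum_congr rfl fun i _ => this i, Finset.sum_add_distrib, ← Finset.mul_sum,
      ← Finset.mul_sum, ← e1, ← e2]
    ring
  have hK1 : HasDerivAt (fun s => 3 * sq (V s) ^ 2 + 2 * sq (V s))
      (beta (2 * t) * (2 * V t 0 - dot (V t) (γ t) + t ^ 2 * V t 0) + dot (V t) F) t := by
    rw [hsum]
    have := ((he.fun_pow 2).const_mul 3).fun_add (he.const_mul 2)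
    refine this.congr_deriv ?_
    simp; ring
  have hid : HasDerivAt (fun s : ℝ => s) 1 t := hasDerivAt_id t
  have hP0 := hP 0
  simp only [if_true] at hP0
  have hK2 : HasDerivAt (fun s => 2 * s * (4 * (sq (V s) + 1) * V s 0))
      (2 * (4 * (sq (V t) + 1) * V t 0) +
        2 * t * (beta (2 * t) * (2 * 1 - (γ t 0 - t ^ 2)) + F 0)) t := by
    have := (hid.const_mul 2).fun_mul hP0
    refine this.congr_deriv ?_
    simp
  have hK3 : HasDerivAt (fun s : ℝ => 16 * s ^ 4 + 8 * s ^ 2) (64 * t ^ 3 + 16 * t) t := by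
    have := ((hid.fun_pow 4).const_mul 16).fun_add ((hid.fun_pow 2).const_mul 8)
    refine this.congr_deriv ?_
    simp; ring
  have hK : HasDerivAt (fun s => Kh (V s) s)
      ((beta (2 * t) * (2 * V t 0 - dot (V t) (γ t) + t ^ 2 * V t 0) + dot (V t) F) -
      (2 * (4 * (sq (V t) + 1) * V t 0) +
        2 * t * (beta (2 * t) * (2 * 1 - (γ t 0 - t ^ 2)) + F 0)) + (64 * t ^ 3 + 16 * t)) t := by
    unfold Kh
    exact (hK1.fun_sub hK2).fun_add hK3
  have hβ : HasDerivAt (fun s : ℝ => beta (2 * s)) (96 * t) t := by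
    unfold beta
    have := (((hid.const_mul 2).fun_pow 2).const_mul 12).add_const (4 : ℝ)
    refine this.congr_deriv ?_
    simp; ring
  have hZ : HasDerivAt (fun s => Q (s ^ 2) (γ s))
      (2 * dot (γ t) (V t) - 2 * (2 * t) * γ t 0 - 2 * t ^ 2 * V t 0 + 2 * t ^ 2 * (2 * t)) t := by
    have h2 : HasDerivAt (fun s : ℝ => s ^ 2) (2 * t) t := by
      have := hid.fun_pow 2
      refine this.congr_deriv ?_
      simp
    exact Q_hd hγ h2
  have hfin := (hK.fun_div hβ hb0.ne').fun_add (hZ.div_const 2)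
  refine hfin.congr_deriv ?_
  have hcomm : dot (γ t) (V t) = dot (V t) (γ t) := by
    unfold dot; exact Finset.sum_congr rfl fun i _ => mul_comm _ _
  rw [hcomm]
  unfold Dn
  have hQ : Q (2 * t) (V t) = sq (V t) - 4 * t * V t 0 + 4 * t ^ 2 := by unfold Q; ring
  rw [hQ]
  set b := beta (2 * t) with hbdef
  have hb : b = 48 * t ^ 2 + 4 := by rw [hbdef]; unfold beta; ring
  set e := sq (V t)
  set d := dot (V t) (γ t)
  set f := dot (V t) F
  set K := Kh (V t) t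
  have hbne : b ≠ 0 := hb0.ne'
  have key : (b * (2 * V t 0 - d + t ^ 2 * V t 0) + f -
        (2 * (4 * (e + 1) * V t 0) + 2 * t * (b * (2 * 1 - (γ t 0 - t ^ 2)) + F 0)) +
          (64 * t ^ 3 + 16 * t)) + b * (d - 2 * t * γ t 0 - t ^ 2 * V t 0 + t ^ 2 * (2 * t)) =
      f - 2 * t * F 0 - 16 * t * (e - 4 * t * V t 0 + 4 * t ^ 2) -
        32 * t * (V t 0 - 2 * t) ^ 2 - 8 * (V t 0 - 2 * t) * (e - 4 * t * V t 0 + 4 * t ^ 2) := by
    rw [hb]; ring
  rw [← key]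
  field_simp
  ring

lemma Dn_le {x v F : Fin (m + 1) → ℝ} {t G : ℝ} (ht : 2 ≤ t) (h : Q (2 * t) v ≤ 1 / 4)
    (hG : 0 ≤ G) (hF : ∀ i, |F i| ≤ G) : Dn x v F t ≤ (m + 1) * G / 48 / t ^ 2 := by
  have h1 := Kh_ge ht h
  have h0 := Q_nonneg (2 * t) v
  have hb := beta_pos (2 * t)
  have hm0 : (0 : ℝ) ≤ m := Nat.cast_nonneg m
  have hK : 0 ≤ Kh v t := le_trans (by positivity) h1
  have h2 : 0 ≤ Kh v t * (96 * t) / beta (2 * t) ^ 2 := by
    have : 0 ≤ t := by linarith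
    positivity
  have h3 : dot v F - 2 * t * F 0 ≤ (m + 1) * G := by
    rw [← dot_sub]
    have h4 : ∀ i ∈ (Finset.univ : Finset (Fin (m + 1))),
        (v i - if i = 0 then 2 * t else 0) * F i ≤ G := by
      intro i _
      have h5 := (Q_ge (2 * t) v i).trans h
      have h6 : |v i - if i = 0 then 2 * t else 0| ≤ 1 :=
        abs_le_of_sq_le_sq (by linarith) zero_le_one
      calc (v i - if i = 0 then 2 * t else 0) * F i
          ≤ |(v i - if i = 0 then 2 * t else 0) * F i| := le_abs_self _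
        _ = |v i - if i = 0 then 2 * t else 0| * |F i| := abs_mul _ _
        _ ≤ 1 * G := by
          have := hF i
          gcongr
        _ = G := one_mul G
    have := Finset.sum_le_sum h4
    simpa using this
  have h5 : |v 0 - 2 * t| ≤ 1 / 2 :=
    abs_le_of_sq_le_sq (by linarith [(Q_ge0 (2 * t) v).trans h]) (by norm_num)
  rw [abs_le] at h5
  have h6 : 0 ≤ 16 * t * Q (2 * t) v + 8 * (v 0 - 2 * t) * Q (2 * t) v := by
    have : 0 ≤ (2 * t + (v 0 - 2 * t)) * Q (2 * t) v := by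
      have : 0 ≤ 2 * t + (v 0 - 2 * t) := by linarith [h5.1]
      positivity
    nlinarith
  have h7 : 0 ≤ 32 * t * (v 0 - 2 * t) ^ 2 := by
    have : 0 ≤ t := by linarith
    positivity
  have hGm : 0 ≤ (m + 1) * G := by positivity
  have h8 : (dot v F - 2 * t * F 0 - 16 * t * Q (2 * t) v - 32 * t * (v 0 - 2 * t) ^ 2 -
    8 * (v 0 - 2 * t) * Q (2 * t) v) / beta (2 * t) ≤ (m + 1) * G / beta (2 * t) := by
    gcongr
    linarith
  have h9 : (m + 1) * G / beta (2 * t) ≤ (m + 1) * G / 48 / t ^ 2 := by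
    rw [div_div]
    gcongr
    unfold beta
    nlinarith
  unfold Dn
  linarith

/-- velocities of orbits are differentiable -/
lemma vel_diff {δ s₀ C : ℝ} (hδ : 0 < δ) (hC1 : 1 ≤ C)
    (hC : ∀ r : ℝ, |deriv psi r| ≤ C ∧ |deriv (deriv psi) r| ≤ C) (hδC : 288 * δ * C ≤ 1)
    {f : (Fin (m + 1) → ℝ) → ℝ → ℝ} (hf : C2 f) {γ : ℝ → (Fin (m + 1) → ℝ)}
    (hγ : IsEL (fun x v t => LL δ s₀ x v t + f x t) γ) : Differentiable ℝ (deriv γ) := by
  have hδ1 : δ ≤ 1 / 4 := by nlinarith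
  have hs := LL_sm (m := m) (s₀ := s₀) hδ hδ1
  obtain ⟨W, hWc, hW1, hW2⟩ := legendre hs (LL_pos hδ hC1 hC hδC) (LL_sup hδ hC1 hδC)
  rw [el_iff2 hs hf] at hγ
  obtain ⟨hd, he⟩ := hγ
  have h1 : deriv γ = fun s => W (γ s, fun i => Lv (LL δ s₀) i (γ s) (deriv γ s) s, s) := by
    funext s
    exact (hW1 _ _ _).symm
  rw [h1]
  have hWd : Differentiable ℝ W := hWc.differentiable (by norm_num)
  have h2 : Differentiable ℝ (fun s => ((γ s, fun i => Lv (LL δ s₀) i (γ s) (deriv γ s) s, s) :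
      (Fin (m + 1) → ℝ) × (Fin (m + 1) → ℝ) × ℝ)) := by
    intro s
    refine (hd s).prodMk (DifferentiableAt.prodMk ?_ differentiableAt_id)
    exact differentiableAt_pi.2 fun i => (he s i).differentiableAt
  exact hWd.comp h2

lemma Q_cont {γ : ℝ → (Fin (m + 1) → ℝ)} {c : ℝ → ℝ} (hγ : Continuous γ) (hc : Continuous c) :
    Continuous (fun s => Q (c s) (γ s)) := by
  have h1 : Continuous (fun s => sq (γ s)) := sq_cd.continuous.comp hγ
  have h2 : Continuous (fun s => γ s 0) := (continuous_apply 0).comp hγ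
  unfold Q
  fun_prop

/-- the main estimate -/
theorem dyn {δ s₀ C G t₀ θ : ℝ} (hδ : 0 < δ) (hC1 : 1 ≤ C)
    (hC : ∀ r : ℝ, |deriv psi r| ≤ C ∧ |deriv (deriv psi) r| ≤ C) (hδC : 288 * δ * C ≤ 1)
    (hG : 0 ≤ G) {f : (Fin (m + 1) → ℝ) → ℝ → ℝ} (hf : C2 f)
    (hfG : ∀ (i : Fin (m + 1)) (x : Fin (m + 1) → ℝ) (t : ℝ), |Df f i x t| ≤ G)
    (ht₀ : 2 ≤ t₀) (hs₀ : s₀ + 1 ≤ 2 * t₀) (hθ1 : θ ≤ δ ^ 2 / 16) (hθ2 : θ ≤ 1 / 104)
    (hθ3 : (m + 1) * G / 48 / t₀ ≤ θ / 2)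
    {γ : ℝ → (Fin (m + 1) → ℝ)}
    (hγ : IsEL (fun x v t => LL δ s₀ x v t + f x t) γ)
    (h0 : Nf (γ t₀) (deriv γ t₀) t₀ < θ / 2) (h0x : Q (t₀ ^ 2) (γ t₀) < δ ^ 2 / 4)
    (h0v : Q (2 * t₀) (deriv γ t₀) < 1 / 4) :
    ∀ t, t₀ ≤ t → Q (t ^ 2) (γ t) < δ ^ 2 / 4 ∧ Q (2 * t) (deriv γ t) < 1 / 4 := by
  have hδ1 : δ ≤ 1 / 4 := by nlinarith
  have hsm := LL_sm (m := m) (s₀ := s₀) hδ hδ1
  have hVd := vel_diff hδ hC1 hC hδC hf hγ
  rw [el_iff2 hsm hf] at hγ
  obtain ⟨hd, he⟩ := hγ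
  have hγc : Continuous γ := continuous_iff_continuousAt.2 fun t => (hd t).continuousAt
  have hZc : Continuous (fun s => Q (s ^ 2) (γ s)) := Q_cont hγc (by fun_prop)
  have hρc : Continuous (fun s => Q (2 * s) (deriv γ s)) := Q_cont hVd.continuous (by fun_prop)
  -- the derivative of the Lyapunov function at the points of the region
  have hder : ∀ t, t₀ ≤ t → Q (t ^ 2) (γ t) < δ ^ 2 / 4 → Q (2 * t) (deriv γ t) < 1 / 4 →
      HasDerivAt (fun s => Nf (γ s) (deriv γ s) s)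
        (Dn (γ t) (deriv γ t) (fun i => Df f i (γ t) t) t) t := by
    intro t ht hx hv
    refine N_hd (hd t).hasDerivAt (hVd t).hasDerivAt fun i => ?_
    have hreg : ∀ s, Q (s ^ 2) (γ s) < δ ^ 2 / 4 → Q (2 * s) (deriv γ s) < 1 / 4 →
        |deriv γ s 0 - 2 * (((0 : ℤ) : ℝ) + s)| < 6 / 5 ∧
          |γ s 0 - (2 * ((0 : ℤ) : ℝ) * s + s ^ 2 + ((0 : ℤ) : ℝ))| < 3 / 5 := by
      intro s h1 h2
      have h3 := (Q_ge0 (s ^ 2) (γ s)).trans_lt h1
      have h4 := (Q_ge0 (2 * s) (deriv γ s)).trans_lt h2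
      constructor
      · refine abs_lt_of_sq_lt_sq ?_ (by norm_num)
        push_cast
        rw [zero_add]
        linarith
      · refine abs_lt_of_sq_lt_sq ?_ (by norm_num)
        push_cast
        have : (γ s 0 - (2 * 0 * s + s ^ 2 + 0)) = γ s 0 - s ^ 2 := by ring
        rw [this]
        nlinarith
    have hev : (fun s => 4 * (sq (deriv γ s) + 1) * deriv γ s i) =ᶠ[𝓝 t]
        fun s => Lv (LL δ s₀) i (γ s) (deriv γ s) s := by
      filter_upwards [(isOpen_lt hZc continuous_const).mem_nhds hx,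
        (isOpen_lt hρc continuous_const).mem_nhds hv] with s h1 h2
      obtain ⟨h3, h4⟩ := hreg s h1 h2
      rw [LL_v hδ hδ1 0 0 (γ s) (deriv γ s) s i h3 h4]
      have h5 : Q (2 * (((0 : ℤ) : ℝ) + s)) (deriv γ s) < 1 / 4 := by
        simpa using h2
      rw [dpsi_zero' h5]
      ring
    have h6 := (he t i).congr_of_eventuallyEq hev
    refine h6.congr_deriv ?_
    obtain ⟨h3, h4⟩ := hreg t hx hv
    rw [LL_x hδ hδ1 0 0 (γ t) (deriv γ t) t i h3 h4]
    have e1 : 2 * (((0 : ℤ) : ℝ) + t) = 2 * t := by simp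
    have e2 : 2 * ((0 : ℤ) : ℝ) * t + t ^ 2 + ((0 : ℤ) : ℝ) = t ^ 2 := by simp
    rw [e1, e2]
    have h7 : Q (t ^ 2) (γ t) / δ ^ 2 < 1 / 4 := by
      rw [div_lt_iff₀ (by positivity)]; linarith
    rw [dpsi_zero' h7, psi_one h7.le, psi_one hv.le, amp_eq (by linarith)]
    ring
  by_contra hcon
  push Not at hcon
  obtain ⟨t₁, ht₁, hbad⟩ := hcon
  set Bad : Set ℝ := {t | t₀ ≤ t ∧ ¬ (Q (t ^ 2) (γ t) < δ ^ 2 / 4 ∧ Q (2 * t) (deriv γ t) < 1 / 4)}
    with hBad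
  have hBc : IsClosed Bad := by
    have h1 : IsClosed {t : ℝ | t₀ ≤ t} := isClosed_Ici
    have h2 : IsOpen {t : ℝ | Q (t ^ 2) (γ t) < δ ^ 2 / 4 ∧ Q (2 * t) (deriv γ t) < 1 / 4} :=
      (isOpen_lt hZc continuous_const).inter (isOpen_lt hρc continuous_const)
    exact h1.inter h2.isClosed_compl
  have hBb : BddBelow Bad := ⟨t₀, fun t ht => ht.1⟩
  have hBn : Bad.Nonempty := ⟨t₁, ht₁, fun h => absurd h.2 (not_lt.2 (hbad h.1))⟩
  set τ := sInf Bad with hτ
  have hτB : τ ∈ Bad := hBc.csInf_mem hBn hBb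
  have hτt : t₀ < τ := by
    rcases lt_or_eq_of_le hτB.1 with h | h
    · exact h
    · exfalso
      apply hτB.2
      rw [← h]
      exact ⟨h0x, h0v⟩
  have hgood : ∀ t, t₀ ≤ t → t < τ →
      Q (t ^ 2) (γ t) < δ ^ 2 / 4 ∧ Q (2 * t) (deriv γ t) < 1 / 4 := by
    intro t h1 h2
    by_contra h3
    exact absurd (csInf_le hBb (show t ∈ Bad from ⟨h1, h3⟩)) (not_le.2 h2)
  set A : ℝ := (m + 1) * G / 48 with hA
  set θ' : ℝ := Nf (γ t₀) (deriv γ t₀) t₀ + A / t₀ with hθ'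
  have hθθ : θ' < θ := by
    have : A / t₀ ≤ θ / 2 := hθ3
    linarith
  have hN : ∀ t, t₀ ≤ t → t < τ → Nf (γ t) (deriv γ t) t ≤ θ' := by
    intro t h1 h2
    have hA0 : 0 ≤ A := by positivity
    have hMd : ∀ s ∈ Icc t₀ t, HasDerivAt (fun s => Nf (γ s) (deriv γ s) s + A / s)
        (Dn (γ s) (deriv γ s) (fun i => Df f i (γ s) s) s + -A / s ^ 2) s := by
      intro s hs
      have h3 := hgood s hs.1 (hs.2.trans_lt h2)
      have h4 : HasDerivAt (fun s : ℝ => A / s) (-A / s ^ 2) s := by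
        have hs0 : s ≠ 0 := by linarith [hs.1]
        have := (hasDerivAt_inv hs0).const_mul A
        refine (this.congr_deriv ?_)
        ring
      exact (hder s hs.1 h3.1 h3.2).fun_add h4
    have hanti : AntitoneOn (fun s => Nf (γ s) (deriv γ s) s + A / s) (Icc t₀ t) := by
      refine antitoneOn_of_deriv_nonpos (convex_Icc _ _)
        (fun s hs => (hMd s hs).continuousAt.continuousWithinAt)
        (fun s hs => (hMd s (interior_subset hs)).differentiableAt.differentiableWithinAt) ?_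
      intro s hs
      have hs' := interior_subset hs
      rw [(hMd s hs').deriv]
      have h3 := hgood s hs'.1 (hs'.2.trans_lt h2)
      have h4 := Dn_le (x := γ s) (F := fun i => Df f i (γ s) s) (ht₀.trans hs'.1) h3.2.le hG
        (fun i => hfG i (γ s) s)
      have h5 : -A / s ^ 2 = -(A / s ^ 2) := neg_div _ _
      rw [h5]
      linarith
    have h3 := hanti (left_mem_Icc.2 h1) (right_mem_Icc.2 h1) h1
    simp only at h3
    have h4 : 0 ≤ A / t := by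
      have : 0 < t := by linarith
      positivity
    linarith
  have hlim : ∀ g : ℝ → ℝ, Continuous g → ∀ c : ℝ, (∀ t, t₀ ≤ t → t < τ → g t ≤ c) → g τ ≤ c := by
    intro g hg c hc
    have h1 : Tendsto g (𝓝[<] τ) (𝓝 (g τ)) := hg.continuousAt.tendsto.mono_left nhdsWithin_le_nhds
    refine le_of_tendsto h1 ?_
    filter_upwards [Ico_mem_nhdsLT hτt] with t ht
    exact hc t ht.1 ht.2
  have hZτ : Q (τ ^ 2) (γ τ) ≤ 2 * θ' := by
    refine hlim _ hZc _ fun t h1 h2 => ?_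
    have h3 := hN t h1 h2
    have h4 := (Nf_ge (x := γ t) (ht₀.trans h1) (hgood t h1 h2).2.le).2
    linarith
  have hρτ : Q (2 * τ) (deriv γ τ) ≤ 13 * θ' := by
    refine hlim _ hρc _ fun t h1 h2 => ?_
    have h3 := hN t h1 h2
    have h4 := (Nf_ge (x := γ t) (ht₀.trans h1) (hgood t h1 h2).2.le).1
    linarith
  apply hτB.2
  constructor
  · nlinarith
  · linarith

end

end Pool.Agent.Run7.h526.AC
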