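import Pool.Agent.Run7.h526.AC.Conv

/-!
Derivatives and growth of the Lagrangian `|v|^4 + 2|v|^2 + W`.
-/

set_option autoImplicit false

namespace Pool.Agent.Run7.h526.AC

open Set Filter Topology
open Pool.Agent.W774.TL Pool.Agent.TH217.TL
open scoped ContDiff

noncomputable section

variable {m : ℕ}

lemma psi_hd (y : ℝ) : HasDerivAt psi (deriv psi y) y :=
  (psi_cd.differentiable (by simp)).differentiableAt.hasDerivAt

lemma Q_upd_hd (c : ℝ) (x : Fin (m + 1) → ℝ) (i : Fin (m + 1)) :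
    HasDerivAt (fun s => Q c (Function.update x i s)) (2 * (x i - if i = 0 then c else 0)) (x i) := by
  have h := Q_hd (hasDerivAt_update x i (x i)) (hasDerivAt_const (x i) c)
  refine h.congr_deriv ?_
  simp only [Function.update_eq_self]
  rw [dot_single]
  by_cases hi : i = 0
  · subst hi; simp; ring
  · have : (Pi.single i (1 : ℝ) : Fin (m + 1) → ℝ) 0 = 0 := by
      rw [Pi.single_apply, if_neg (Ne.symm hi)]
    rw [this, if_neg hi]; ring

lemma sq_upd_hd (x : Fin (m + 1) → ℝ) (i : Fin (m + 1)) :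
    HasDerivAt (fun s => sq (Function.update x i s)) (2 * x i) (x i) := by
  have h := sq_hd (hasDerivAt_update x i (x i))
  refine h.congr_deriv ?_
  simp only [Function.update_eq_self]
  rw [dot_single]

lemma zero_upd_hd (x : Fin (m + 1) → ℝ) (i : Fin (m + 1)) :
    HasDerivAt (fun s => Function.update x i s 0) (if i = 0 then 1 else 0) (x i) := by
  have h := hasDerivAt_pi.1 (hasDerivAt_update x i (x i)) 0
  refine h.congr_deriv ?_
  rw [Pi.single_apply]
  by_cases hi : i = 0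
  · subst hi; simp
  · rw [if_neg (Ne.symm hi), if_neg hi]

lemma ev_v {δ s₀ : ℝ} (hδ : 0 < δ) (hδ1 : δ ≤ 1 / 4) (n k : ℤ)
    (x v : Fin (m + 1) → ℝ) (t : ℝ) (i : Fin (m + 1))
    (hv : |v 0 - 2 * (n + t)| < 6 / 5) (hx : |x 0 - (2 * n * t + t ^ 2 + k)| < 3 / 5) :
    (fun s => W δ s₀ x (Function.update v i s) t) =ᶠ[𝓝 (v i)]
      fun s => brt δ s₀ n k x (Function.update v i s) t := by
  have hc : Tendsto (fun s : ℝ => ((x, Function.update v i s, t) :
      (Fin (m + 1) → ℝ) × (Fin (m + 1) → ℝ) × ℝ)) (𝓝 (v i)) (𝓝 (x, v, t)) := by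
    have h := (upd_v x v t i).continuousAt.tendsto
    rwa [Function.update_eq_self] at h
  exact hc.eventually (W_eventually hδ hδ1 n k x v t hv hx)

lemma ev_x {δ s₀ : ℝ} (hδ : 0 < δ) (hδ1 : δ ≤ 1 / 4) (n k : ℤ)
    (x v : Fin (m + 1) → ℝ) (t : ℝ) (i : Fin (m + 1))
    (hv : |v 0 - 2 * (n + t)| < 6 / 5) (hx : |x 0 - (2 * n * t + t ^ 2 + k)| < 3 / 5) :
    (fun s => W δ s₀ (Function.update x i s) v t) =ᶠ[𝓝 (x i)]
      fun s => brt δ s₀ n k (Function.update x i s) v t := by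
  have hc : Tendsto (fun s : ℝ => ((Function.update x i s, v, t) :
      (Fin (m + 1) → ℝ) × (Fin (m + 1) → ℝ) × ℝ)) (𝓝 (x i)) (𝓝 (x, v, t)) := by
    have h := (upd_x x v t i).continuousAt.tendsto
    rwa [Function.update_eq_self] at h
  exact hc.eventually (W_eventually hδ hδ1 n k x v t hv hx)

lemma LL_v {δ s₀ : ℝ} (hδ : 0 < δ) (hδ1 : δ ≤ 1 / 4) (n k : ℤ)
    (x v : Fin (m + 1) → ℝ) (t : ℝ) (i : Fin (m + 1))
    (hv : |v 0 - 2 * (n + t)| < 6 / 5) (hx : |x 0 - (2 * n * t + t ^ 2 + k)| < 3 / 5) :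
    Lv (LL δ s₀) i x v t = 4 * (sq v + 1) * v i +
      a0 δ s₀ (2 * (n + t)) (2 * n * t + t ^ 2 + k) x * (deriv psi (Q (2 * (n + t)) v) *
        (2 * (v i - if i = 0 then 2 * ((n : ℝ) + t) else 0))) := by
  unfold Lv
  have h1 := sq_upd_hd v i
  have h2 := Q_upd_hd (2 * ((n : ℝ) + t)) v i
  have h3 : HasDerivAt (fun s => BB (Function.update v i s)) (4 * (sq v + 1) * v i) (v i) := by
    unfold BB
    have := (h1.fun_pow 2).fun_add (h1.const_mul 2)
    refine this.congr_deriv ?_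
    simp only [Function.update_eq_self]
    norm_num
    ring
  have h4 : HasDerivAt (fun s => brt δ s₀ n k x (Function.update v i s) t)
      (a0 δ s₀ (2 * (n + t)) (2 * n * t + t ^ 2 + k) x * (deriv psi (Q (2 * (n + t)) v) *
        (2 * (v i - if i = 0 then 2 * ((n : ℝ) + t) else 0)))) (v i) := by
    unfold brt
    simp only [br_eq]
    have h5 : HasDerivAt psi (deriv psi (Q (2 * ((n : ℝ) + t)) v))
        (Q (2 * ((n : ℝ) + t)) (Function.update v i (v i))) := by
      rw [Function.update_eq_self]; exact psi_hd _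
    exact ((h5.comp (v i) h2)).const_mul _
  have h5 : HasDerivAt (fun s => W δ s₀ x (Function.update v i s) t)
      (a0 δ s₀ (2 * (n + t)) (2 * n * t + t ^ 2 + k) x * (deriv psi (Q (2 * (n + t)) v) *
        (2 * (v i - if i = 0 then 2 * ((n : ℝ) + t) else 0)))) (v i) :=
    h4.congr_of_eventuallyEq (ev_v hδ hδ1 n k x v t i hv hx)
  exact (h3.fun_add h5).deriv

lemma LL_x {δ s₀ : ℝ} (hδ : 0 < δ) (hδ1 : δ ≤ 1 / 4) (n k : ℤ)
    (x v : Fin (m + 1) → ℝ) (t : ℝ) (i : Fin (m + 1))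
    (hv : |v 0 - 2 * (n + t)| < 6 / 5) (hx : |x 0 - (2 * n * t + t ^ 2 + k)| < 3 / 5) :
    Lx (LL δ s₀) i x v t = amp s₀ (2 * (n + t)) * psi (Q (2 * (n + t)) v) *
      (deriv psi (Q (2 * n * t + t ^ 2 + k) x / δ ^ 2) *
        (2 * (x i - if i = 0 then 2 * (n : ℝ) * t + t ^ 2 + k else 0) / δ ^ 2) *
        (2 * (x 0 - (2 * n * t + t ^ 2 + k)) - Q (2 * n * t + t ^ 2 + k) x / 2) +
        psi (Q (2 * n * t + t ^ 2 + k) x / δ ^ 2) *
        (2 * (if i = 0 then 1 else 0) -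
          (x i - if i = 0 then 2 * (n : ℝ) * t + t ^ 2 + k else 0))) := by
  unfold Lx
  set c : ℝ := 2 * (n : ℝ) * t + t ^ 2 + k with hc
  have h2 := Q_upd_hd c x i
  have h0 := zero_upd_hd x i
  have h4 : HasDerivAt (fun s => brt δ s₀ n k (Function.update x i s) v t)
      (amp s₀ (2 * (n + t)) * psi (Q (2 * (n + t)) v) *
      (deriv psi (Q c x / δ ^ 2) * (2 * (x i - if i = 0 then c else 0) / δ ^ 2) *
        (2 * (x 0 - c) - Q c x / 2) + psi (Q c x / δ ^ 2) *
        (2 * (if i = 0 then 1 else 0) - (x i - if i = 0 then c else 0)))) (x i) := by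
    unfold brt br
    rw [← hc]
    have h5 : HasDerivAt psi (deriv psi (Q c x / δ ^ 2))
        (Q c (Function.update x i (x i)) / δ ^ 2) := by
      rw [Function.update_eq_self]; exact psi_hd _
    have h6 := (h5.comp (x i) (h2.div_const (δ ^ 2))).const_mul (amp s₀ (2 * (n + t)))
    have h7 := h6.mul_const (psi (Q (2 * (n + t)) v))
    have h8 := h7.fun_mul (((h0.sub_const c).const_mul 2).fun_sub (h2.div_const 2))
    refine h8.congr_deriv ?_
    simp only [Function.comp_apply, Function.update_eq_self]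
    ring
  have h5 : HasDerivAt (fun s => W δ s₀ (Function.update x i s) v t)
      _ (x i) := h4.congr_of_eventuallyEq (ev_x hδ hδ1 n k x v t i hv hx)
  exact (h5.const_add (BB v)).deriv

lemma LL_v_bd {δ s₀ C : ℝ} (hδ : 0 < δ) (hC1 : 1 ≤ C)
    (hC : ∀ r : ℝ, |deriv psi r| ≤ C ∧ |deriv (deriv psi) r| ≤ C) (hδC : 288 * δ * C ≤ 1)
    (x v : Fin (m + 1) → ℝ) (t : ℝ) (i : Fin (m + 1)) :
    (sq v + 1) * (4 * |v i| - 1 / 2) ≤ |Lv (LL δ s₀) i x v t| := by
  have hδ1 : δ ≤ 1 / 4 := by nlinarith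
  obtain ⟨n, k, h1, h2⟩ := round_near x v t
  rw [LL_v hδ hδ1 n k x v t i (by linarith) (by linarith)]
  set S : ℝ := 2 * (n + t) with hS
  set c : ℝ := 2 * n * t + t ^ 2 + k with hc
  have ha := a0_bd hδ hδ1 s₀ S c x
  have hsv := sq_nonneg' v
  have hb := beta_pos S
  have key : |a0 δ s₀ S c x * (deriv psi (Q S v) * (2 * (v i - if i = 0 then S else 0)))| ≤
      (sq v + 1) / 2 := by
    rcases le_or_gt (Q S v) (1 / 2) with h | h
    · have h3 := beta_le h
      have h4 : |v i - if i = 0 then S else 0| ≤ 1 := by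
        have h5 := (Q_ge S v i).trans h
        exact abs_le_of_sq_le_sq (by linarith) zero_le_one
      have h5 : |a0 δ s₀ S c x| ≤ 24 * (sq v + 1) * (3 * δ) := ha.trans (by gcongr)
      rw [abs_mul, abs_mul, abs_mul, abs_two]
      have h6 := (hC (Q S v)).1
      calc |a0 δ s₀ S c x| * (|deriv psi (Q S v)| * (2 * |v i - if i = 0 then S else 0|))
          ≤ (24 * (sq v + 1) * (3 * δ)) * (C * (2 * 1)) := by gcongr
        _ = (288 * δ * C) * ((sq v + 1) / 2) := by ring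
        _ ≤ 1 * ((sq v + 1) / 2) := by gcongr
        _ = (sq v + 1) / 2 := one_mul _
    · rw [dpsi_zero h]
      simp only [zero_mul, mul_zero, abs_zero]
      positivity
  have h3 : |4 * (sq v + 1) * v i| = 4 * (sq v + 1) * |v i| := by
    rw [abs_mul, abs_of_nonneg (by positivity)]
  have h4 := abs_sub_abs_le_abs_add (4 * (sq v + 1) * v i)
    (a0 δ s₀ S c x * (deriv psi (Q S v) * (2 * (v i - if i = 0 then S else 0))))
  rw [h3] at h4
  nlinarith

lemma LL_x_bd {δ s₀ C : ℝ} (hδ : 0 < δ) (hC1 : 1 ≤ C)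
    (hC : ∀ r : ℝ, |deriv psi r| ≤ C ∧ |deriv (deriv psi) r| ≤ C) (hδC : 288 * δ * C ≤ 1)
    (x v : Fin (m + 1) → ℝ) (t : ℝ) (i : Fin (m + 1)) :
    |Lx (LL δ s₀) i x v t| ≤ 24 * (6 * C + 3) * (sq v + 1) := by
  have hδ1 : δ ≤ 1 / 4 := by nlinarith
  obtain ⟨n, k, h1, h2⟩ := round_near x v t
  rw [LL_x hδ hδ1 n k x v t i (by linarith) (by linarith)]
  set S : ℝ := 2 * (n + t) with hS
  set c : ℝ := 2 * n * t + t ^ 2 + k with hc
  have hsv := sq_nonneg' v
  have hb := beta_pos S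
  have key : |deriv psi (Q c x / δ ^ 2) * (2 * (x i - if i = 0 then c else 0) / δ ^ 2) *
        (2 * (x 0 - c) - Q c x / 2) + psi (Q c x / δ ^ 2) *
        (2 * (if i = 0 then 1 else 0) - (x i - if i = 0 then c else 0))| ≤ 6 * C + 3 := by
    rcases le_or_gt (Q c x / δ ^ 2) (1 / 2) with h | h
    · obtain ⟨h3, h4⟩ := P_bd hδ hδ1 c x h
      have h4i := h4 i
      have h5 := (hC (Q c x / δ ^ 2)).1
      have h6 := psi_le_one (Q c x / δ ^ 2)
      have h7 := psi_nonneg (Q c x / δ ^ 2)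
      refine (abs_add_le _ _).trans ?_
      have e1 : |deriv psi (Q c x / δ ^ 2) * (2 * (x i - if i = 0 then c else 0) / δ ^ 2) *
        (2 * (x 0 - c) - Q c x / 2)| ≤ C * (2 * δ / δ ^ 2) * (3 * δ) := by
        rw [abs_mul, abs_mul, abs_div, abs_mul, abs_two, abs_of_nonneg (by positivity : 0 ≤ δ ^ 2)]
        gcongr
      have e2 : C * (2 * δ / δ ^ 2) * (3 * δ) = 6 * C := by
        field_simp
        ring
      have e3 : |psi (Q c x / δ ^ 2) *
        (2 * (if i = 0 then 1 else 0) - (x i - if i = 0 then c else 0))| ≤ 1 * 3 := by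
        rw [abs_mul, abs_of_nonneg h7]
        have : |(2 * (if i = 0 then (1 : ℝ) else 0) - (x i - if i = 0 then c else 0))| ≤ 3 := by
          rw [abs_le] at h4i ⊢
          by_cases hi : i = 0
          · rw [if_pos hi] at h4i ⊢
            rw [if_pos hi]
            constructor <;> linarith [h4i.1, h4i.2]
          · rw [if_neg hi] at h4i ⊢
            rw [if_neg hi]
            constructor <;> linarith [h4i.1, h4i.2]
        gcongr
      linarith
    · rw [dpsi_zero h, psi_zero h.le]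
      simp only [zero_mul, add_zero, abs_zero]
      positivity
  rcases le_or_gt (Q S v) (1 / 2) with h | h
  · have h3 := beta_le h
    rw [abs_mul, abs_mul, abs_of_nonneg (amp_nonneg _ _), abs_of_nonneg (psi_nonneg _)]
    have h4 := amp_le s₀ S
    have h5 := amp_nonneg s₀ S
    have h6 := psi_nonneg (Q S v)
    have h7 := psi_le_one (Q S v)
    have h8 : amp s₀ S * psi (Q S v) ≤ (24 * (sq v + 1)) * 1 := by
      have : amp s₀ S ≤ 24 * (sq v + 1) := h4.trans h3
      gcongr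
    calc _ ≤ ((24 * (sq v + 1)) * 1) * (6 * C + 3) := by gcongr
      _ = _ := by ring
  · rw [psi_zero h.le]
    simp only [mul_zero, zero_mul, abs_zero]
    positivity

/-- the growth condition -/
lemma LL_grow {δ s₀ C : ℝ} (hδ : 0 < δ) (hC1 : 1 ≤ C)
    (hC : ∀ r : ℝ, |deriv psi r| ≤ C ∧ |deriv (deriv psi) r| ≤ C) (hδC : 288 * δ * C ≤ 1) :
    Grow (LL δ s₀ : (Fin (m + 1) → ℝ) → (Fin (m + 1) → ℝ) → ℝ → ℝ)
      (24 * (6 * C + 3) * (m + 2)) := by
  intro x v t
  set p : Fin (m + 1) → ℝ := fun i => Lv (LL δ s₀) i x v t with hp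
  have hpn : 0 ≤ ‖p‖ := norm_nonneg _
  have hsv := sq_nonneg' v
  have h1 : ∀ i, (sq v + 1) * (4 * |v i| - 1 / 2) ≤ ‖p‖ := fun i =>
    (LL_v_bd hδ hC1 hC hδC x v t i).trans (norm_le_pi_norm p i)
  have hA : (1 : ℝ) ≤ 24 * (6 * C + 3) * (m + 2) := by
    have : (0 : ℝ) ≤ m := Nat.cast_nonneg m
    nlinarith
  have hv : ‖v‖ ≤ 1 + ‖p‖ := by
    refine (pi_norm_le_iff_of_nonneg (by positivity)).2 fun i => ?_
    rw [Real.norm_eq_abs]
    have h2 := h1 i
    by_contra hcon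
    push Not at hcon
    nlinarith
  have hs : sq v + 1 ≤ (m + 2) * (1 + ‖p‖) := by
    have hm0 : (0 : ℝ) ≤ m := Nat.cast_nonneg m
    by_cases hex : ∃ i, 3 / 8 ≤ |v i|
    · obtain ⟨i, hi⟩ := hex
      have h2 := h1 i
      nlinarith
    · push Not at hex
      have h3 : sq v ≤ m + 1 := by
        unfold sq
        have : ∀ i ∈ (Finset.univ : Finset (Fin (m + 1))), v i ^ 2 ≤ 1 := by
          intro i _
          have h4 := hex i
          rw [← sq_abs]
          nlinarith [abs_nonneg (v i)]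
        have h5 := Finset.sum_le_sum this
        simpa using h5
      nlinarith
  refine ⟨?_, fun i => ?_⟩
  · nlinarith
  · refine (LL_x_bd hδ hC1 hC hδC x v t i).trans ?_
    have : (0 : ℝ) ≤ 24 * (6 * C + 3) := by nlinarith
    calc 24 * (6 * C + 3) * (sq v + 1) ≤ 24 * (6 * C + 3) * ((m + 2) * (1 + ‖p‖)) := by gcongr
      _ = _ := by ring

end

end Pool.Agent.Run7.h526.AC
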