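import Pool.Agent.Run7.h526.AC.Tb

/-!
Packaging of the dynamics for the hand-in `MP_6acca1_an.TubeAccelerator`.
-/

set_option autoImplicit false

namespace Pool.Agent.Run7.h526.AC

open Set Filter Topology
open Pool.Agent.W774.TL Pool.Agent.TH217.TL
open scoped ContDiff

noncomputable section

variable {m : ℕ}

lemma tube_open (ε : ℝ) : IsOpen {x : Fin (m + 1) → ℝ | ∀ i, i ≠ 0 → |x i| < ε} := by
  have : {x : Fin (m + 1) → ℝ | ∀ i, i ≠ 0 → |x i| < ε} =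
      ⋂ i : Fin (m + 1), {x | i ≠ 0 → |x i| < ε} := by
    ext x; simp
  rw [this]
  refine isOpen_iInter_of_finite fun i => ?_
  by_cases hi : i = 0
  · simp [hi]
  · have h1 : Continuous (fun x : Fin (m + 1) → ℝ => |x i|) := (continuous_apply i).abs
    have h2 : {x : Fin (m + 1) → ℝ | i ≠ 0 → |x i| < ε} = {x | |x i| < ε} := by
      ext x; simp [hi]
    rw [h2]
    exact isOpen_lt h1 continuous_const

section congr

variable {L L' : (Fin (m + 1) → ℝ) → (Fin (m + 1) → ℝ) → ℝ → ℝ} {ε R : ℝ}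

lemma Lv_congr (h : ∀ (x v : Fin (m + 1) → ℝ) (t : ℝ), (∀ i, i ≠ 0 → |x i| < ε) → R < v 0 →
    L' x v t = L x v t) {x v : Fin (m + 1) → ℝ} (hx : ∀ i, i ≠ 0 → |x i| < ε) (hv : R < v 0)
    (t : ℝ) (i : Fin (m + 1)) : Lv L' i x v t = Lv L i x v t := by
  unfold Lv
  refine Filter.EventuallyEq.deriv_eq ?_
  have hc : Tendsto (fun s : ℝ => Function.update v i s 0) (𝓝 (v i)) (𝓝 (v 0)) := by
    have h1 := (zero_upd_hd v i).continuousAt.tendsto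
    rwa [Function.update_eq_self] at h1
  filter_upwards [hc.eventually (lt_mem_nhds hv)] with s hs
  exact h x _ t hx hs

lemma Lx_congr (h : ∀ (x v : Fin (m + 1) → ℝ) (t : ℝ), (∀ i, i ≠ 0 → |x i| < ε) → R < v 0 →
    L' x v t = L x v t) {x v : Fin (m + 1) → ℝ} (hx : ∀ i, i ≠ 0 → |x i| < ε) (hv : R < v 0)
    (t : ℝ) (i : Fin (m + 1)) : Lx L' i x v t = Lx L i x v t := by
  unfold Lx
  refine Filter.EventuallyEq.deriv_eq ?_
  have hc : Tendsto (fun s : ℝ => Function.update x i s) (𝓝 (x i)) (𝓝 x) := by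
    have h1 := (hasDerivAt_update x i (x i)).continuousAt.tendsto
    rwa [Function.update_eq_self] at h1
  filter_upwards [hc.eventually ((tube_open ε).mem_nhds hx)] with s hs
  exact h _ v t hs hv

lemma el_congr (h : ∀ (x v : Fin (m + 1) → ℝ) (t : ℝ), (∀ i, i ≠ 0 → |x i| < ε) → R < v 0 →
    L' x v t = L x v t) {γ : ℝ → (Fin (m + 1) → ℝ)} (hγ : IsEL L γ) (hc : Continuous (deriv γ))
    {t : ℝ} (hx : ∀ i, i ≠ 0 → |γ t i| < ε) (hv : R < deriv γ t 0) :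
    DifferentiableAt ℝ γ t ∧ ∀ i : Fin (m + 1),
      HasDerivAt (fun s => Lv L' i (γ s) (deriv γ s) s) (Lx L' i (γ t) (deriv γ t) t) t := by
  have hγc : Continuous γ := continuous_iff_continuousAt.2 fun t => (hγ.1 t).continuousAt
  refine ⟨hγ.1 t, fun i => ?_⟩
  rw [Lx_congr h hx hv]
  refine (hγ.2 t i).congr_of_eventuallyEq ?_
  have h1 : Continuous (fun s => deriv γ s 0) := (continuous_apply 0).comp hc
  filter_upwards [((tube_open ε).preimage hγc).mem_nhds hx,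
    (isOpen_lt continuous_const h1).mem_nhds hv] with s hs1 hs2
  exact Lv_congr h hs1 hs2 s i

end congr

/-- the set of initial conditions -/
def UU₀ (m : ℕ) (δ θ t₀ : ℝ) : Set ((Fin (m + 1) → ℝ) × (Fin (m + 1) → ℝ)) :=
  {p | Nf p.1 p.2 t₀ < θ / 2 ∧ Q (t₀ ^ 2) p.1 < δ ^ 2 / 4 ∧ Q (2 * t₀) p.2 < 1 / 4}

lemma UU₀_open (m : ℕ) (δ θ t₀ : ℝ) : IsOpen (UU₀ m δ θ t₀) := by
  have s1 : Continuous (fun p : (Fin (m + 1) → ℝ) × (Fin (m + 1) → ℝ) => sq p.1) :=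
    sq_cd.continuous.comp continuous_fst
  have s2 : Continuous (fun p : (Fin (m + 1) → ℝ) × (Fin (m + 1) → ℝ) => sq p.2) :=
    sq_cd.continuous.comp continuous_snd
  have s3 : Continuous (fun p : (Fin (m + 1) → ℝ) × (Fin (m + 1) → ℝ) => p.1 0) :=
    (continuous_apply 0).comp continuous_fst
  have s4 : Continuous (fun p : (Fin (m + 1) → ℝ) × (Fin (m + 1) → ℝ) => p.2 0) :=
    (continuous_apply 0).comp continuous_snd
  have q1 : Continuous (fun p : (Fin (m + 1) → ℝ) × (Fin (m + 1) → ℝ) => Q (t₀ ^ 2) p.1) := by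
    unfold Q; fun_prop
  have q2 : Continuous (fun p : (Fin (m + 1) → ℝ) × (Fin (m + 1) → ℝ) => Q (2 * t₀) p.2) := by
    unfold Q; fun_prop
  have q3 : Continuous (fun p : (Fin (m + 1) → ℝ) × (Fin (m + 1) → ℝ) => Nf p.1 p.2 t₀) := by
    unfold Nf Kh
    fun_prop
  exact (isOpen_lt q3 continuous_const).inter
    ((isOpen_lt q1 continuous_const).inter (isOpen_lt q2 continuous_const))

lemma Q_self (c : ℝ) : Q c (fun i : Fin (m + 1) => if i = 0 then c else 0) = 0 := by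
  rw [Q_sum]; simp

lemma UU₀_nonempty (m : ℕ) {δ θ : ℝ} (t₀ : ℝ) (hδ : 0 < δ) (hθ : 0 < θ) :
    (UU₀ m δ θ t₀).Nonempty := by
  refine ⟨(fun i => if i = 0 then t₀ ^ 2 else 0, fun i => if i = 0 then 2 * t₀ else 0), ?_, ?_, ?_⟩
  · unfold Nf
    rw [Kh_eq, Q_self, Q_self]
    simp
    linarith
  · rw [Q_self]; positivity
  · rw [Q_self]; norm_num

theorem main (m : ℕ) (ε R : ℝ) (hε : 0 < ε) : ∃ δ s₀ : ℝ, 0 < δ ∧ δ ≤ 1 / 4 ∧ δ ≤ ε ∧ s₀ = R + 1 ∧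
    Pos (LL δ s₀ : (Fin (m + 1) → ℝ) → (Fin (m + 1) → ℝ) → ℝ → ℝ) ∧
    (∃ C : ℝ, ∀ (x v : Fin (m + 1) → ℝ) (t : ℝ), |W δ s₀ x v t| ≤ C * (1 + ‖v‖) ^ 2 ∧
        |deriv (fun s => W δ s₀ x v s) t| ≤ C * (1 + ‖v‖) ^ 3) ∧
    ∀ G : ℝ, ∃ (t₀ : ℝ) (U : Set ((Fin (m + 1) → ℝ) × (Fin (m + 1) → ℝ))),
        IsOpen U ∧ U.Nonempty ∧ R + 2 ≤ 2 * t₀ ∧
        ∀ f : (Fin (m + 1) → ℝ) → ℝ → ℝ, C2 f →
          (∀ (i : Fin (m + 1)) (x : Fin (m + 1) → ℝ) (t : ℝ), |Df f i x t| ≤ G) →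
          (∀ (s₁ : ℝ) (x₀ v₀ : Fin (m + 1) → ℝ), ∃ γ : ℝ → (Fin (m + 1) → ℝ),
            IsEL (fun x v t => LL δ s₀ x v t + f x t) γ ∧ γ s₁ = x₀ ∧ deriv γ s₁ = v₀) ∧
          (∀ γ : ℝ → (Fin (m + 1) → ℝ), IsEL (fun x v t => LL δ s₀ x v t + f x t) γ →
            Continuous (deriv γ) ∧ ((γ t₀, deriv γ t₀) ∈ U →
              ∀ t, t₀ ≤ t → Q (t ^ 2) (γ t) < δ ^ 2 / 4 ∧ Q (2 * t) (deriv γ t) < 1 / 4)) := by
  obtain ⟨C, hC1, hC⟩ := psi_bd
  have hCpos : 0 < C := by linarith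
  set δ : ℝ := min ε (1 / (288 * C)) with hδdef
  have hδ : 0 < δ := lt_min hε (by positivity)
  have hδC : 288 * δ * C ≤ 1 := by
    have h1 : δ ≤ 1 / (288 * C) := min_le_right _ _
    rw [le_div_iff₀ (by positivity)] at h1
    linarith
  have hδ1 : δ ≤ 1 / 4 := by nlinarith
  refine ⟨δ, R + 1, hδ, hδ1, min_le_left _ _, rfl, LL_pos hδ hC1 hC hδC, ?_, fun G => ?_⟩
  · refine ⟨1000 * C * (m + 1), fun x v t => ⟨?_, W_t_bd hδ hC1 hC hδC x v t⟩⟩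
    refine (W_bd hδ hδ1 x v t).trans ?_
    have h1 := sq_nonneg' v
    have h2 := sq_le_norm v
    have h3 := norm_nonneg v
    have hm0 : (0 : ℝ) ≤ m := Nat.cast_nonneg m
    have h4 : 72 * δ * (sq v + 1) ≤ 1 * (sq v + 1) := by
      have : 72 * δ ≤ 1 := by nlinarith
      gcongr
    have h5 : sq v + 1 ≤ (m + 1) * (1 + ‖v‖) ^ 2 := by
      have e : (m + 1) * (1 + ‖v‖) ^ 2 = ((m + 1) * ‖v‖ ^ 2 + 1) + (m + 2 * (m + 1) * ‖v‖) := by
        ring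
      rw [e]
      have : 0 ≤ m + 2 * (m + 1) * ‖v‖ := by positivity
      linarith
    have h6 : (m + 1) * (1 + ‖v‖) ^ 2 ≤ 1000 * C * (m + 1) * (1 + ‖v‖) ^ 2 := by
      have h7 : 0 ≤ (m + 1) * (1 + ‖v‖) ^ 2 := by positivity
      have h8 : (1 : ℝ) ≤ 1000 * C := by linarith
      have h9 := mul_le_mul_of_nonneg_right h8 h7
      calc (m + 1) * (1 + ‖v‖) ^ 2 = 1 * ((m + 1) * (1 + ‖v‖) ^ 2) := (one_mul _).symm
        _ ≤ 1000 * C * ((m + 1) * (1 + ‖v‖) ^ 2) := h9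
        _ = _ := by ring
    linarith
  · set G' : ℝ := max G 0 with hG'
    have hG0 : 0 ≤ G' := le_max_right _ _
    set θ : ℝ := min (δ ^ 2 / 16) (1 / 104) with hθ
    have hθ0 : 0 < θ := lt_min (by positivity) (by norm_num)
    set A : ℝ := (m + 1) * G' / 48 with hA
    have hA0 : 0 ≤ A := by positivity
    set t₀ : ℝ := max 2 (max ((R + 2) / 2) (A / (θ / 2))) with ht₀
    have h2 : 2 ≤ t₀ := le_max_left _ _
    have h3 : (R + 2) / 2 ≤ t₀ := (le_max_left _ _).trans (le_max_right _ _)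
    have h4 : A / (θ / 2) ≤ t₀ := (le_max_right _ _).trans (le_max_right _ _)
    have h5 : A / t₀ ≤ θ / 2 := by
      rw [div_le_iff₀ (by linarith)]
      rw [div_le_iff₀ (by positivity)] at h4
      linarith
    refine ⟨t₀, UU₀ m δ θ t₀, UU₀_open m δ θ t₀, UU₀_nonempty m t₀ hδ hθ0, by linarith, ?_⟩
    intro f hf hfG
    have hfG' : ∀ (i : Fin (m + 1)) (x : Fin (m + 1) → ℝ) (t : ℝ), |Df f i x t| ≤ G' :=
      fun i x t => (hfG i x t).trans (le_max_left _ _)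
    have hsm := LL_sm (m := m) (s₀ := R + 1) hδ hδ1
    have hpos := LL_pos (m := m) (s₀ := R + 1) hδ hC1 hC hδC
    have hsup := LL_sup (m := m) (s₀ := R + 1) hδ hC1 hδC
    have hgrow := LL_grow (m := m) (s₀ := R + 1) hδ hC1 hC hδC
    refine ⟨fun s₁ x₀ v₀ => complete hsm hpos hsup (by positivity) hgrow hf hG0 hfG' s₁ x₀ v₀,
      fun γ hγ => ⟨(vel_diff hδ hC1 hC hδC hf hγ).continuous, fun hU => ?_⟩⟩
    obtain ⟨u1, u2, u3⟩ := hU
    exact dyn hδ hC1 hC hδC hG0 hf hfG' h2 (by linarith) (min_le_left _ _) (min_le_right _ _)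
      h5 hγ u1 u2 u3

end

end Pool.Agent.Run7.h526.AC
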