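import Pool.Agent.Run7.h526.AC.Dyn

/-!
The time derivative of the wave is bounded by `C (1 + ‖v‖)^3`; support of the wave.
-/

set_option autoImplicit false

namespace Pool.Agent.Run7.h526.AC

open Set Filter Topology
open Pool.Agent.W774.TL Pool.Agent.TH217.TL
open scoped ContDiff

noncomputable section

variable {m : ℕ}

lemma st_eq (y : ℝ) : Real.smoothTransition y = psi ((2 - y) / 4) := by
  unfold psi; congr 1; ring

lemma amp_hd (s₀ s : ℝ) : HasDerivAt (amp s₀)
    (deriv psi ((2 - (s - s₀)) / 4) * (-1 / 4) * beta s +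
      Real.smoothTransition (s - s₀) * (24 * s)) s := by
  have hid : HasDerivAt (fun s : ℝ => s) 1 s := hasDerivAt_id s
  have h1 : HasDerivAt (fun s : ℝ => (2 - (s - s₀)) / 4) (-1 / 4) s := by
    have := ((hid.sub_const s₀).const_sub 2).div_const 4
    exact this
  have h2 : HasDerivAt (fun s : ℝ => Real.smoothTransition (s - s₀))
      (deriv psi ((2 - (s - s₀)) / 4) * (-1 / 4)) s := by
    simp only [st_eq]
    exact (psi_hd _).comp s h1
  have h3 : HasDerivAt beta (24 * s) s := by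
    unfold beta
    have := ((hid.fun_pow 2).const_mul 12).add_const (4 : ℝ)
    refine this.congr_deriv ?_
    simp; ring
  exact h2.fun_mul h3

lemma amp_d_bd {C : ℝ} (hC1 : 1 ≤ C)
    (hC : ∀ r : ℝ, |deriv psi r| ≤ C ∧ |deriv (deriv psi) r| ≤ C) (s₀ s : ℝ) :
    |deriv psi ((2 - (s - s₀)) / 4) * (-1 / 4) * beta s +
      Real.smoothTransition (s - s₀) * (24 * s)| ≤ (C + 3) * beta s := by
  have hb := beta_pos s
  have h1 := (hC ((2 - (s - s₀)) / 4)).1
  have h2 := Real.smoothTransition.le_one (s - s₀)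
  have h3 := Real.smoothTransition.nonneg (s - s₀)
  refine (abs_add_le _ _).trans ?_
  have e1 : |deriv psi ((2 - (s - s₀)) / 4) * (-1 / 4) * beta s| ≤ C * 1 * beta s := by
    rw [abs_mul, abs_mul, abs_of_pos hb]
    have : |(-1 / 4 : ℝ)| ≤ 1 := by rw [abs_le]; norm_num
    gcongr
  have e2 : |Real.smoothTransition (s - s₀) * (24 * s)| ≤ 1 * (3 * beta s) := by
    rw [abs_mul, abs_of_nonneg h3]
    have : |24 * s| ≤ 3 * beta s := by
      unfold beta
      rw [abs_le]
      constructor <;> nlinarith [sq_nonneg (s - 1), sq_nonneg (s + 1)]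
    gcongr
  linarith

lemma ev_t {δ s₀ : ℝ} (hδ : 0 < δ) (hδ1 : δ ≤ 1 / 4) (n k : ℤ)
    (x v : Fin (m + 1) → ℝ) (t : ℝ)
    (hv : |v 0 - 2 * (n + t)| < 6 / 5) (hx : |x 0 - (2 * n * t + t ^ 2 + k)| < 3 / 5) :
    (fun s => W δ s₀ x v s) =ᶠ[𝓝 t] fun s => brt δ s₀ n k x v s := by
  have hc : Tendsto (fun s : ℝ => ((x, v, s) :
      (Fin (m + 1) → ℝ) × (Fin (m + 1) → ℝ) × ℝ)) (𝓝 t) (𝓝 (x, v, t)) := by
    have h : Continuous (fun s : ℝ => ((x, v, s) :
      (Fin (m + 1) → ℝ) × (Fin (m + 1) → ℝ) × ℝ)) := by fun_prop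
    exact h.tendsto t
  exact hc.eventually (W_eventually hδ hδ1 n k x v t hv hx)

lemma W_t_bd {δ s₀ C : ℝ} (hδ : 0 < δ) (hC1 : 1 ≤ C)
    (hC : ∀ r : ℝ, |deriv psi r| ≤ C ∧ |deriv (deriv psi) r| ≤ C) (hδC : 288 * δ * C ≤ 1)
    (x v : Fin (m + 1) → ℝ) (t : ℝ) :
    |deriv (fun s => W δ s₀ x v s) t| ≤ 1000 * C * (m + 1) * (1 + ‖v‖) ^ 3 := by
  have hδ1 : δ ≤ 1 / 4 := by nlinarith
  have hm0 : (0 : ℝ) ≤ m := Nat.cast_nonneg m
  obtain ⟨n, k, h1, h2⟩ := round_near x v t
  rw [(ev_t hδ hδ1 n k x v t (by linarith) (by linarith)).deriv_eq]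
  set S : ℝ := 2 * (n + t) with hS
  set c : ℝ := 2 * n * t + t ^ 2 + k with hc
  have hid : HasDerivAt (fun s : ℝ => s) 1 t := hasDerivAt_id t
  have hSd : HasDerivAt (fun s : ℝ => 2 * ((n : ℝ) + s)) 2 t := by
    have := (hid.const_add (n : ℝ)).const_mul 2
    simpa using this
  have hcd : HasDerivAt (fun s : ℝ => 2 * (n : ℝ) * s + s ^ 2 + k) S t := by
    have := ((hid.const_mul (2 * (n : ℝ))).fun_add (hid.fun_pow 2)).add_const (k : ℝ)
    refine this.congr_deriv ?_
    simp [hS]; ring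
  have hA := (amp_hd s₀ S).comp t hSd
  have hQx := Q_hd (γ := fun _ => x) (hasDerivAt_const t x) hcd
  have hQv := Q_hd (γ := fun _ => v) (hasDerivAt_const t v) hSd
  have hpx := (psi_hd (Q c x / δ ^ 2)).comp t (hQx.div_const (δ ^ 2))
  have hpv := (psi_hd (Q S v)).comp t hQv
  have hP := ((hcd.const_sub (x 0)).const_mul 2).fun_sub (hQx.div_const 2)
  have hall := ((hA.fun_mul hpx).fun_mul hpv).fun_mul hP
  have hx0d : dot x (0 : Fin (m + 1) → ℝ) = 0 := by simp [dot]
  have hv0d : dot v (0 : Fin (m + 1) → ℝ) = 0 := by simp [dot]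
  have hbr : HasDerivAt (fun s => brt δ s₀ n k x v s)
      ((((deriv psi ((2 - (S - s₀)) / 4) * (-1 / 4) * beta S +
        Real.smoothTransition (S - s₀) * (24 * S)) * 2 * psi (Q c x / δ ^ 2) +
        amp s₀ S * (deriv psi (Q c x / δ ^ 2) * (-2 * S * (x 0 - c) / δ ^ 2))) * psi (Q S v) +
        amp s₀ S * psi (Q c x / δ ^ 2) * (deriv psi (Q S v) * (-4 * (v 0 - S)))) *
        (2 * (x 0 - c) - Q c x / 2) +
        amp s₀ S * psi (Q c x / δ ^ 2) * psi (Q S v) * (2 * -S - -2 * S * (x 0 - c) / 2)) t := by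
    unfold brt br
    refine hall.congr_deriv ?_
    simp only [Function.comp_apply, Pi.zero_apply, hx0d, hv0d]
    simp only [hS, hc]
    ring
  rw [hbr.deriv]
  set a1 : ℝ := deriv psi ((2 - (S - s₀)) / 4) * (-1 / 4) * beta S +
      Real.smoothTransition (S - s₀) * (24 * S) with ha1
  have hb := beta_pos S
  have hR : 0 ≤ 1000 * C * (m + 1) * (1 + ‖v‖) ^ 3 := by positivity
  rcases le_or_gt (Q c x / δ ^ 2) (1 / 2) with hx | hx
  · rcases le_or_gt (Q S v) (1 / 2) with hv | hv
    · obtain ⟨hP1, hP2⟩ := P_bd hδ hδ1 c x hx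
      have hx0 := hP2 0
      simp only [if_true] at hx0
      have hv0 : |v 0 - S| ≤ 1 :=
        abs_le_of_sq_le_sq (by linarith [(Q_ge0 S v).trans hv]) zero_le_one
      have e1 := amp_d_bd hC1 hC s₀ S
      rw [← ha1] at e1
      have e2 := amp_le s₀ S
      have e3 := amp_nonneg s₀ S
      have p1 := psi_le_one (Q c x / δ ^ 2)
      have p2 := psi_nonneg (Q c x / δ ^ 2)
      have p3 := psi_le_one (Q S v)
      have p4 := psi_nonneg (Q S v)
      have d1 := (hC (Q c x / δ ^ 2)).1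
      have d2 := (hC (Q S v)).1
      have hSv : |S| ≤ 1 + ‖v‖ := by
        have h3 : |v 0| ≤ ‖v‖ := norm_le_pi_norm v 0
        have h4 : |S| ≤ |v 0| + |v 0 - S| := by
          have := abs_sub (v 0) (v 0 - S)
          simpa using this
        linarith
      have hbv : beta S ≤ 24 * (m + 1) * (1 + ‖v‖) ^ 2 := by
        refine (beta_le hv).trans ?_
        have h3 := sq_le_norm v
        have h4 := norm_nonneg v
        have e : 24 * (m + 1) * (1 + ‖v‖) ^ 2 =
            24 * ((m + 1) * ‖v‖ ^ 2 + 1) + 24 * (m + 2 * (m + 1) * ‖v‖) := by ring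
        rw [e]
        have : 0 ≤ 24 * (m + 2 * (m + 1) * ‖v‖) := by positivity
        linarith
      have hn0 := norm_nonneg v
      set X : ℝ := 1 + ‖v‖ with hX
      have hX1 : 1 ≤ X := by linarith
      -- the three pieces
      have t1 : |a1 * 2 * psi (Q c x / δ ^ 2) + amp s₀ S *
          (deriv psi (Q c x / δ ^ 2) * (-2 * S * (x 0 - c) / δ ^ 2))| ≤
          beta S * (2 * (C + 3) + 2 * C * X / δ) := by
        refine (abs_add_le _ _).trans ?_
        have u1 : |a1 * 2 * psi (Q c x / δ ^ 2)| ≤ ((C + 3) * beta S) * 2 * 1 := by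
          rw [abs_mul, abs_mul, abs_two, abs_of_nonneg p2]
          gcongr
        have u2 : |amp s₀ S * (deriv psi (Q c x / δ ^ 2) * (-2 * S * (x 0 - c) / δ ^ 2))| ≤
            beta S * (C * (2 * X * δ / δ ^ 2)) := by
          rw [abs_mul, abs_mul, abs_div, abs_mul, abs_mul, abs_of_nonneg e3,
            abs_of_nonneg (by positivity : 0 ≤ δ ^ 2)]
          have : |(-2 : ℝ)| = 2 := by norm_num
          rw [this]
          gcongr
        have u3 : 2 * X * δ / δ ^ 2 = 2 * X / δ := by field_simp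
        rw [u3] at u2
        have u4 : beta S * (C * (2 * X / δ)) = beta S * (2 * C * X / δ) := by ring
        rw [u4] at u2
        linarith
      have t2 : |(a1 * 2 * psi (Q c x / δ ^ 2) + amp s₀ S *
          (deriv psi (Q c x / δ ^ 2) * (-2 * S * (x 0 - c) / δ ^ 2))) * psi (Q S v) +
          amp s₀ S * psi (Q c x / δ ^ 2) * (deriv psi (Q S v) * (-4 * (v 0 - S)))| ≤
          beta S * (2 * (C + 3) + 2 * C * X / δ) * 1 + beta S * 1 * (C * (4 * 1)) := by
        refine (abs_add_le _ _).trans ?_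
        refine add_le_add ?_ ?_
        · rw [abs_mul _ (psi (Q S v)), abs_of_nonneg p4]
          gcongr
        · rw [abs_mul, abs_mul, abs_mul, abs_mul, abs_of_nonneg e3, abs_of_nonneg p2]
          have : |(-4 : ℝ)| = 4 := by norm_num
          rw [this]
          gcongr
      have t3 : |amp s₀ S * psi (Q c x / δ ^ 2) * psi (Q S v) *
          (2 * -S - -2 * S * (x 0 - c) / 2)| ≤ beta S * 1 * 1 * (3 * X) := by
        rw [abs_mul, abs_mul, abs_mul, abs_of_nonneg e3, abs_of_nonneg p2, abs_of_nonneg p4]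
        have : |2 * -S - -2 * S * (x 0 - c) / 2| ≤ 3 * X := by
          have e : 2 * -S - -2 * S * (x 0 - c) / 2 = S * (-2 + (x 0 - c)) := by ring
          rw [e, abs_mul]
          have : |-2 + (x 0 - c)| ≤ 3 := by
            rw [abs_le] at hx0 ⊢
            constructor <;> linarith [hx0.1, hx0.2]
          calc |S| * |-2 + (x 0 - c)| ≤ X * 3 := by gcongr
            _ = 3 * X := by ring
        gcongr
      refine (abs_add_le _ _).trans ?_
      rw [abs_mul]
      have t4 : (beta S * (2 * (C + 3) + 2 * C * X / δ) * 1 + beta S * 1 * (C * (4 * 1))) *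
          (3 * δ) + beta S * 1 * 1 * (3 * X) =
          beta S * ((6 * (C + 3) + 12 * C) * δ + 6 * C * X + 3 * X) := by
        field_simp
        ring
      have t5 : (6 * (C + 3) + 12 * C) * δ + 6 * C * X + 3 * X ≤ 40 * C * X := by
        have q2 : C ≤ C * X := le_mul_of_one_le_right (by linarith) hX1
        have q3 : X ≤ C * X := le_mul_of_one_le_left (by linarith) hC1
        have q4 : (6 * (C + 3) + 12 * C) * δ ≤ C := by
          have h3 : (6 * (C + 3) + 12 * C) * δ ≤ (36 * C) * δ := by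
            have : (6 * (C + 3) + 12 * C) ≤ 36 * C := by linarith
            gcongr
          have h4 : (36 * C) * δ = (288 * δ * C) / 8 := by ring
          linarith
        have q5 : 40 * C * X = 40 * (C * X) := by ring
        have q6 : 6 * C * X = 6 * (C * X) := by ring
        rw [q5, q6]
        linarith
      calc _ ≤ (beta S * (2 * (C + 3) + 2 * C * X / δ) * 1 + beta S * 1 * (C * (4 * 1))) *
            (3 * δ) + beta S * 1 * 1 * (3 * X) := by gcongr
        _ = beta S * ((6 * (C + 3) + 12 * C) * δ + 6 * C * X + 3 * X) := t4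
        _ ≤ (24 * (m + 1) * X ^ 2) * (40 * C * X) := by gcongr
        _ ≤ 1000 * C * (m + 1) * X ^ 3 := by
          have h3 : 0 ≤ C * (m + 1) * X ^ 3 := by positivity
          have h4 : (24 * (m + 1) * X ^ 2) * (40 * C * X) = 960 * (C * (m + 1) * X ^ 3) := by ring
          have h5 : 1000 * C * (m + 1) * X ^ 3 = 1000 * (C * (m + 1) * X ^ 3) := by ring
          rw [h4, h5]
          linarith
    · rw [psi_zero hv.le, dpsi_zero hv]
      simp only [mul_zero, zero_mul, add_zero, abs_zero]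
      exact hR
  · rw [psi_zero hx.le, dpsi_zero hx]
    simp only [mul_zero, zero_mul, add_zero, abs_zero]
    exact hR

lemma W_supp {δ s₀ : ℝ} (hδ : 0 < δ) (x v : Fin (m + 1) → ℝ) (t : ℝ) (h : W δ s₀ x v t ≠ 0) :
    (∀ i, i ≠ 0 → |x i| < δ) ∧ s₀ - 1 < v 0 := by
  unfold W brt br at h
  set n : ℤ := round ((v 0 - 2 * t) / 2)
  set k : ℤ := round (x 0 - (2 * (n : ℝ) * t + t ^ 2))
  set S : ℝ := 2 * (n + t) with hS
  set c : ℝ := 2 * n * t + t ^ 2 + k with hc
  have h1 : amp s₀ S ≠ 0 := fun h0 => h (by rw [h0]; ring)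
  have h2 : psi (Q c x / δ ^ 2) ≠ 0 := fun h0 => h (by rw [h0]; ring)
  have h3 : psi (Q S v) ≠ 0 := fun h0 => h (by rw [h0]; ring)
  have h4 : s₀ < S := by
    by_contra hc
    exact h1 (amp_zero (not_lt.1 hc))
  have h5 : Q c x / δ ^ 2 < 1 / 2 := by
    by_contra hc
    exact h2 (psi_zero (not_lt.1 hc))
  have h6 : Q S v < 1 / 2 := by
    by_contra hc
    exact h3 (psi_zero (not_lt.1 hc))
  constructor
  · intro i hi
    rw [div_lt_iff₀ (by positivity)] at h5
    have h7 := Q_ge c x i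
    rw [if_neg hi, sub_zero] at h7
    exact abs_lt_of_sq_lt_sq (by nlinarith) hδ.le
  · have h7 : |v 0 - S| < 1 :=
      abs_lt_of_sq_lt_sq (by linarith [Q_ge0 S v]) zero_le_one
    rw [abs_lt] at h7
    linarith [h7.1]

end

end Pool.Agent.Run7.h526.AC
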