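import Pool.Agent.TH217.TL.Compl

/-!
A travelling bump on `T(S^1 × ℝ^m) × 𝕋` which accelerates particles (hand-in
`MP_6acca1_an.TubeAccelerator`).
-/

set_option autoImplicit false

namespace Pool.Agent.Run7.h526.AC

open Set Filter Topology
open scoped ContDiff

noncomputable section

/-- smooth cutoff -/
def psi (r : ℝ) : ℝ := Real.smoothTransition (2 - 4 * r)

lemma psi_one {r : ℝ} (h : r ≤ 1 / 4) : psi r = 1 :=
  Real.smoothTransition.one_of_one_le (by linarith)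

lemma psi_zero {r : ℝ} (h : 1 / 2 ≤ r) : psi r = 0 :=
  Real.smoothTransition.zero_of_nonpos (by linarith)

lemma psi_nonneg (r : ℝ) : 0 ≤ psi r := Real.smoothTransition.nonneg _

lemma psi_le_one (r : ℝ) : psi r ≤ 1 := Real.smoothTransition.le_one _

lemma psi_cd : ContDiff ℝ ∞ psi :=
  Real.smoothTransition.contDiff.comp (by fun_prop)

lemma dpsi_cd : ContDiff ℝ ∞ (deriv psi) := by
  have h := psi_cd
  rw [contDiff_infty_iff_deriv] at h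
  exact h.2

lemma ddpsi_cd : ContDiff ℝ ∞ (deriv (deriv psi)) := by
  have h := dpsi_cd
  rw [contDiff_infty_iff_deriv] at h
  exact h.2

lemma dpsi_zero {r : ℝ} (h : 1 / 2 < r) : deriv psi r = 0 := by
  have : psi =ᶠ[𝓝 r] fun _ => 0 := by
    filter_upwards [Ioi_mem_nhds h] with s hs
    exact psi_zero (le_of_lt hs)
  rw [this.deriv_eq]; simp

lemma dpsi_zero' {r : ℝ} (h : r < 1 / 4) : deriv psi r = 0 := by
  have : psi =ᶠ[𝓝 r] fun _ => 1 := by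
    filter_upwards [Iio_mem_nhds h] with s hs
    exact psi_one (le_of_lt hs)
  rw [this.deriv_eq]; simp

lemma ddpsi_zero {r : ℝ} (h : 1 / 2 < r) : deriv (deriv psi) r = 0 := by
  have : deriv psi =ᶠ[𝓝 r] fun _ => 0 := by
    filter_upwards [Ioi_mem_nhds h] with s hs
    exact dpsi_zero hs
  rw [this.deriv_eq]; simp

lemma ddpsi_zero' {r : ℝ} (h : r < 1 / 4) : deriv (deriv psi) r = 0 := by
  have : deriv psi =ᶠ[𝓝 r] fun _ => 0 := by
    filter_upwards [Iio_mem_nhds h] with s hs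
    exact dpsi_zero' hs
  rw [this.deriv_eq]; simp

/-- bounds for the derivatives of `psi`; they vanish at points larger than `1/2`. -/
lemma psi_bd : ∃ C : ℝ, 1 ≤ C ∧ ∀ r : ℝ, |deriv psi r| ≤ C ∧ |deriv (deriv psi) r| ≤ C := by
  obtain ⟨C1, h1⟩ := (isCompact_Icc (a := (0 : ℝ)) (b := 1)).exists_bound_of_continuousOn
    (dpsi_cd.continuous.continuousOn)
  obtain ⟨C2, h2⟩ := (isCompact_Icc (a := (0 : ℝ)) (b := 1)).exists_bound_of_continuousOn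
    (ddpsi_cd.continuous.continuousOn)
  refine ⟨max 1 (max C1 C2), le_max_left _ _, fun r => ?_⟩
  have hm1 : C1 ≤ max 1 (max C1 C2) := (le_max_left _ _).trans (le_max_right _ _)
  have hm2 : C2 ≤ max 1 (max C1 C2) := (le_max_right _ _).trans (le_max_right _ _)
  have hm0 : 0 ≤ max 1 (max C1 C2) := zero_le_one.trans (le_max_left _ _)
  by_cases hr : r ∈ Icc (0 : ℝ) 1
  · exact ⟨(h1 r hr).trans hm1, (h2 r hr).trans hm2⟩
  · rcases lt_or_ge r 0 with h | h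
    · rw [dpsi_zero' (by linarith), ddpsi_zero' (by linarith)]
      simpa using hm0
    · have h' : 1 < r := by
        by_contra hc
        exact hr ⟨h, by linarith⟩
      rw [dpsi_zero (by linarith), ddpsi_zero (by linarith)]
      simpa using hm0

variable {m : ℕ}

/-- the square of the Euclidean norm -/
def sq (v : Fin (m + 1) → ℝ) : ℝ := ∑ i, v i ^ 2

/-- the square of the distance of `x` and `(c, 0, …, 0)` -/
def Q (c : ℝ) (x : Fin (m + 1) → ℝ) : ℝ := sq x - 2 * c * x 0 + c ^ 2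

lemma sq_succ (v : Fin (m + 1) → ℝ) : sq v = v 0 ^ 2 + ∑ i : Fin m, v i.succ ^ 2 :=
  Fin.sum_univ_succ _

lemma sq_nonneg' (v : Fin (m + 1) → ℝ) : 0 ≤ sq v := Finset.sum_nonneg fun i _ => sq_nonneg _

lemma Q_succ (c : ℝ) (x : Fin (m + 1) → ℝ) :
    Q c x = (x 0 - c) ^ 2 + ∑ i : Fin m, x i.succ ^ 2 := by
  unfold Q; rw [sq_succ]; ring

lemma Q_sum (c : ℝ) (x : Fin (m + 1) → ℝ) :
    Q c x = ∑ i, (x i - if i = 0 then c else 0) ^ 2 := by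
  rw [Q_succ, Fin.sum_univ_succ]
  simp

lemma Q_nonneg (c : ℝ) (x : Fin (m + 1) → ℝ) : 0 ≤ Q c x := by
  rw [Q_sum]; exact Finset.sum_nonneg fun i _ => sq_nonneg _

lemma Q_ge (c : ℝ) (x : Fin (m + 1) → ℝ) (i : Fin (m + 1)) :
    (x i - if i = 0 then c else 0) ^ 2 ≤ Q c x := by
  rw [Q_sum]
  exact Finset.single_le_sum (f := fun i => (x i - if i = 0 then c else 0) ^ 2)
    (fun i _ => sq_nonneg _) (Finset.mem_univ i)

lemma Q_ge0 (c : ℝ) (x : Fin (m + 1) → ℝ) : (x 0 - c) ^ 2 ≤ Q c x := by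
  have := Q_ge c x 0
  simpa using this

lemma sq_ge (v : Fin (m + 1) → ℝ) (i : Fin (m + 1)) : v i ^ 2 ≤ sq v :=
  Finset.single_le_sum (f := fun i => v i ^ 2) (fun i _ => sq_nonneg _) (Finset.mem_univ i)

lemma sq_ge_norm (v : Fin (m + 1) → ℝ) : ‖v‖ ^ 2 ≤ sq v := by
  have h : ‖v‖ ≤ Real.sqrt (sq v) := by
    refine (pi_norm_le_iff_of_nonneg (Real.sqrt_nonneg _)).2 fun i => ?_
    rw [Real.norm_eq_abs, ← Real.sqrt_sq_eq_abs]
    exact Real.sqrt_le_sqrt (sq_ge v i)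
  calc ‖v‖ ^ 2 ≤ Real.sqrt (sq v) ^ 2 := by gcongr
    _ = sq v := Real.sq_sqrt (sq_nonneg' v)

lemma sq_le_norm (v : Fin (m + 1) → ℝ) : sq v ≤ (m + 1) * ‖v‖ ^ 2 := by
  have h : ∀ i ∈ (Finset.univ : Finset (Fin (m + 1))), v i ^ 2 ≤ ‖v‖ ^ 2 := by
    intro i _
    have := norm_le_pi_norm v i
    rw [Real.norm_eq_abs] at this
    rw [← sq_abs (v i)]
    gcongr
  have := Finset.sum_le_sum h
  simpa [sq] using this

lemma sq_cd : ContDiff ℝ ∞ (sq : (Fin (m + 1) → ℝ) → ℝ) := by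
  unfold sq; fun_prop

def beta (s : ℝ) : ℝ := 12 * s ^ 2 + 4

lemma beta_pos (s : ℝ) : 0 < beta s := by unfold beta; positivity

/-- the amplitude -/
def amp (s₀ s : ℝ) : ℝ := Real.smoothTransition (s - s₀) * beta s

lemma amp_nonneg (s₀ s : ℝ) : 0 ≤ amp s₀ s :=
  mul_nonneg (Real.smoothTransition.nonneg _) (beta_pos s).le

lemma amp_le (s₀ s : ℝ) : amp s₀ s ≤ beta s := by
  have h1 := Real.smoothTransition.le_one (s - s₀)
  have h2 := beta_pos s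
  unfold amp
  nlinarith

lemma amp_zero {s₀ s : ℝ} (h : s ≤ s₀) : amp s₀ s = 0 := by
  unfold amp; rw [Real.smoothTransition.zero_of_nonpos (by linarith), zero_mul]

lemma amp_eq {s₀ s : ℝ} (h : s₀ + 1 ≤ s) : amp s₀ s = beta s := by
  unfold amp; rw [Real.smoothTransition.one_of_one_le (by linarith), one_mul]

lemma amp_cd (s₀ : ℝ) : ContDiff ℝ ∞ (amp s₀) := by
  unfold amp beta
  exact (Real.smoothTransition.contDiff.comp (by fun_prop)).mul (by fun_prop)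

/-- one bump -/
def br (δ s₀ S c : ℝ) (x v : Fin (m + 1) → ℝ) : ℝ :=
  amp s₀ S * psi (Q c x / δ ^ 2) * psi (Q S v) * (2 * (x 0 - c) - Q c x / 2)

/-- one travelling bump -/
def brt (δ s₀ : ℝ) (n k : ℤ) (x v : Fin (m + 1) → ℝ) (t : ℝ) : ℝ :=
  br δ s₀ (2 * (n + t)) (2 * n * t + t ^ 2 + k) x v

/-- the wave -/
def W (δ s₀ : ℝ) (x v : Fin (m + 1) → ℝ) (t : ℝ) : ℝ :=
  brt δ s₀ (round ((v 0 - 2 * t) / 2))
    (round (x 0 - (2 * (round ((v 0 - 2 * t) / 2) : ℤ) * t + t ^ 2))) x v t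

lemma psiQ_zero_of_x {δ c : ℝ} (hδ : 0 < δ) {x : Fin (m + 1) → ℝ} (h : δ ^ 2 / 2 ≤ (x 0 - c) ^ 2) :
    psi (Q c x / δ ^ 2) = 0 := by
  apply psi_zero
  rw [le_div_iff₀ (by positivity)]
  have := Q_ge0 c x
  linarith

lemma br_zero_x {δ s₀ S c : ℝ} (hδ : 0 < δ) {x v : Fin (m + 1) → ℝ}
    (h : δ ^ 2 / 2 ≤ (x 0 - c) ^ 2) : br δ s₀ S c x v = 0 := by
  unfold br; rw [psiQ_zero_of_x hδ h]; ring

lemma br_zero_v {δ s₀ S c : ℝ} {x v : Fin (m + 1) → ℝ}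
    (h : 1 / 2 ≤ (v 0 - S) ^ 2) : br δ s₀ S c x v = 0 := by
  unfold br; rw [psi_zero (r := Q S v) (h.trans (Q_ge0 S v))]; ring

/-- near every point the wave is one travelling bump -/
lemma W_loc {δ s₀ : ℝ} (hδ : 0 < δ) (hδ1 : δ ≤ 1 / 4) (n k : ℤ) (x v : Fin (m + 1) → ℝ) (t : ℝ)
    (hv : |v 0 - 2 * (n + t)| < 6 / 5) (hx : |x 0 - (2 * n * t + t ^ 2 + k)| < 3 / 5) :
    W δ s₀ x v t = brt δ s₀ n k x v t := by
  unfold W
  set n' : ℤ := round ((v 0 - 2 * t) / 2) with hn'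
  have hr : |(v 0 - 2 * t) / 2 - n'| ≤ 1 / 2 := abs_sub_round _
  have hδ2 : δ ^ 2 ≤ 1 / 16 := by nlinarith
  by_cases hnn : n' = n
  · rw [hnn]
    set k' : ℤ := round (x 0 - (2 * (n : ℝ) * t + t ^ 2)) with hk'
    have hrk : |x 0 - (2 * (n : ℝ) * t + t ^ 2) - k'| ≤ 1 / 2 := abs_sub_round _
    by_cases hkk : k' = k
    · rw [hkk]
    · have h1 : (1 : ℝ) ≤ |(k' : ℝ) - k| := by
        have : (1 : ℤ) ≤ |k' - k| := Int.one_le_abs (sub_ne_zero.2 hkk)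
        exact_mod_cast this
      rw [abs_le] at hrk
      rw [abs_lt] at hx
      have e1 : 1 / 4 ≤ (x 0 - (2 * n * t + t ^ 2 + k)) ^ 2 := by
        rcases le_abs.1 h1 with h | h <;> nlinarith
      have e2 : 4 / 25 ≤ (x 0 - (2 * n * t + t ^ 2 + k')) ^ 2 := by
        rcases le_abs.1 h1 with h | h <;> nlinarith
      unfold brt
      rw [br_zero_x hδ (by linarith), br_zero_x hδ (by linarith)]
  · have h1 : (1 : ℝ) ≤ |(n' : ℝ) - n| := by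
      have : (1 : ℤ) ≤ |n' - n| := Int.one_le_abs (sub_ne_zero.2 hnn)
      exact_mod_cast this
    rw [abs_le] at hr
    rw [abs_lt] at hv
    have e1 : 1 ≤ (v 0 - 2 * (n + t)) ^ 2 := by
      rcases le_abs.1 h1 with h | h <;> nlinarith
    have e2 : 16 / 25 ≤ (v 0 - 2 * (n' + t)) ^ 2 := by
      rcases le_abs.1 h1 with h | h <;> nlinarith
    unfold brt
    rw [br_zero_v (S := 2 * (n' + t)) (by linarith), br_zero_v (S := 2 * (n + t)) (by linarith)]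

/-- the rounding of a point -/
lemma round_near (x v : Fin (m + 1) → ℝ) (t : ℝ) : ∃ n k : ℤ,
    |v 0 - 2 * (n + t)| ≤ 1 ∧ |x 0 - (2 * n * t + t ^ 2 + k)| ≤ 1 / 2 := by
  refine ⟨round ((v 0 - 2 * t) / 2),
    round (x 0 - (2 * (round ((v 0 - 2 * t) / 2) : ℤ) * t + t ^ 2)), ?_, ?_⟩
  · have hr : |(v 0 - 2 * t) / 2 - round ((v 0 - 2 * t) / 2)| ≤ 1 / 2 := abs_sub_round _
    rw [abs_le] at hr ⊢
    constructor <;> linarith [hr.1, hr.2]
  · have := abs_sub_round (x 0 - (2 * (round ((v 0 - 2 * t) / 2) : ℤ) * t + t ^ 2))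
    rw [← sub_sub] 
    exact this

lemma brt_cd (δ s₀ : ℝ) (n k : ℤ) :
    ContDiff ℝ ∞ (fun q : (Fin (m + 1) → ℝ) × (Fin (m + 1) → ℝ) × ℝ =>
      brt δ s₀ n k q.1 q.2.1 q.2.2) := by
  have hS : ContDiff ℝ ∞ (fun q : (Fin (m + 1) → ℝ) × (Fin (m + 1) → ℝ) × ℝ =>
      2 * ((n : ℝ) + q.2.2)) := by fun_prop
  have hc : ContDiff ℝ ∞ (fun q : (Fin (m + 1) → ℝ) × (Fin (m + 1) → ℝ) × ℝ =>
      2 * (n : ℝ) * q.2.2 + q.2.2 ^ 2 + k) := by fun_prop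
  have hx0 : ContDiff ℝ ∞ (fun q : (Fin (m + 1) → ℝ) × (Fin (m + 1) → ℝ) × ℝ => q.1 0) := by
    fun_prop
  have hv0 : ContDiff ℝ ∞ (fun q : (Fin (m + 1) → ℝ) × (Fin (m + 1) → ℝ) × ℝ => q.2.1 0) := by
    fun_prop
  have hsx : ContDiff ℝ ∞ (fun q : (Fin (m + 1) → ℝ) × (Fin (m + 1) → ℝ) × ℝ => sq q.1) :=
    sq_cd.comp contDiff_fst
  have hsv : ContDiff ℝ ∞ (fun q : (Fin (m + 1) → ℝ) × (Fin (m + 1) → ℝ) × ℝ => sq q.2.1) :=
    sq_cd.comp (contDiff_fst.comp contDiff_snd)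
  have hQx : ContDiff ℝ ∞ (fun q : (Fin (m + 1) → ℝ) × (Fin (m + 1) → ℝ) × ℝ =>
      Q (2 * (n : ℝ) * q.2.2 + q.2.2 ^ 2 + k) q.1) := by
    unfold Q
    exact (hsx.sub ((contDiff_const.mul hc).mul hx0)).add (hc.pow 2)
  have hQv : ContDiff ℝ ∞ (fun q : (Fin (m + 1) → ℝ) × (Fin (m + 1) → ℝ) × ℝ =>
      Q (2 * ((n : ℝ) + q.2.2)) q.2.1) := by
    unfold Q
    exact (hsv.sub ((contDiff_const.mul hS).mul hv0)).add (hS.pow 2)
  unfold brt br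
  exact ((((amp_cd s₀).comp hS).mul (psi_cd.comp (hQx.div_const _))).mul (psi_cd.comp hQv)).mul
    ((contDiff_const.mul (hx0.sub hc)).sub (hQx.div_const _))

lemma W_eventually {δ s₀ : ℝ} (hδ : 0 < δ) (hδ1 : δ ≤ 1 / 4) (n k : ℤ)
    (x v : Fin (m + 1) → ℝ) (t : ℝ)
    (hv : |v 0 - 2 * (n + t)| < 6 / 5) (hx : |x 0 - (2 * n * t + t ^ 2 + k)| < 3 / 5) :
    (fun q : (Fin (m + 1) → ℝ) × (Fin (m + 1) → ℝ) × ℝ => W δ s₀ q.1 q.2.1 q.2.2) =ᶠ[𝓝 (x, v, t)]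
      fun q => brt δ s₀ n k q.1 q.2.1 q.2.2 := by
  have h1 : Continuous (fun q : (Fin (m + 1) → ℝ) × (Fin (m + 1) → ℝ) × ℝ =>
      |q.2.1 0 - 2 * ((n : ℝ) + q.2.2)|) := by fun_prop
  have h2 : Continuous (fun q : (Fin (m + 1) → ℝ) × (Fin (m + 1) → ℝ) × ℝ =>
      |q.1 0 - (2 * (n : ℝ) * q.2.2 + q.2.2 ^ 2 + k)|) := by fun_prop
  filter_upwards [(isOpen_lt h1 continuous_const).mem_nhds hv,
    (isOpen_lt h2 continuous_const).mem_nhds hx] with q hq1 hq2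
  exact W_loc hδ hδ1 n k q.1 q.2.1 q.2.2 hq1 hq2

lemma W_cd {δ s₀ : ℝ} (hδ : 0 < δ) (hδ1 : δ ≤ 1 / 4) :
    ContDiff ℝ ∞ (fun q : (Fin (m + 1) → ℝ) × (Fin (m + 1) → ℝ) × ℝ =>
      W δ s₀ q.1 q.2.1 q.2.2) := by
  rw [contDiff_iff_contDiffAt]
  rintro ⟨x, v, t⟩
  obtain ⟨n, k, h1, h2⟩ := round_near x v t
  exact (brt_cd δ s₀ n k).contDiffAt.congr_of_eventuallyEq
    (W_eventually hδ hδ1 n k x v t (by linarith) (by linarith))

lemma Q_shift (c : ℝ) (k : ℝ) (x : Fin (m + 1) → ℝ) :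
    Q (c + k) (fun i => x i + if i = 0 then k else 0) = Q c x := by
  rw [Q_succ, Q_succ]
  simp only [Fin.succ_ne_zero, if_false, add_zero, if_true]
  ring

/-- periodicity -/
lemma W_per (δ s₀ : ℝ) (x v : Fin (m + 1) → ℝ) (t : ℝ) (k l : ℤ) :
    W δ s₀ (fun i => x i + if i = 0 then (k : ℝ) else 0) v (t + l) = W δ s₀ x v t := by
  unfold W
  have e1 : round ((v 0 - 2 * (t + l)) / 2) = round ((v 0 - 2 * t) / 2) - l := by
    have : (v 0 - 2 * (t + l)) / 2 = (v 0 - 2 * t) / 2 - (l : ℤ) := by ring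
    rw [this, round_sub_intCast]
  rw [e1]
  set n : ℤ := round ((v 0 - 2 * t) / 2) with hn
  have e2 : round ((fun i => x i + if i = 0 then (k : ℝ) else 0) 0 -
      (2 * ((n - l : ℤ) : ℝ) * (t + l) + (t + l) ^ 2)) =
      round (x 0 - (2 * (n : ℝ) * t + t ^ 2)) + (k - 2 * n * l + l ^ 2) := by
    have : (fun i => x i + if i = 0 then (k : ℝ) else 0) 0 -
      (2 * ((n - l : ℤ) : ℝ) * (t + l) + (t + l) ^ 2) =
        (x 0 - (2 * (n : ℝ) * t + t ^ 2)) + ((k - 2 * n * l + l ^ 2 : ℤ) : ℝ) := by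
      push_cast
      simp only [if_true]
      ring
    rw [this, round_add_intCast]
  rw [e2]
  set k' : ℤ := round (x 0 - (2 * (n : ℝ) * t + t ^ 2)) with hk'
  unfold brt
  have e3 : 2 * (((n - l : ℤ) : ℝ) + (t + l)) = 2 * (n + t) := by push_cast; ring
  have e4 : 2 * ((n - l : ℤ) : ℝ) * (t + l) + (t + l) ^ 2 + ((k' + (k - 2 * n * l + l ^ 2) : ℤ) : ℝ)
      = (2 * n * t + t ^ 2 + k') + k := by push_cast; ring
  rw [e3, e4]
  unfold br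
  rw [Q_shift]
  simp only [if_true]
  ring

end

end Pool.Agent.Run7.h526.AC
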